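import Mathlib

set_option autoImplicit false

open MvPolynomial

noncomputable section

namespace Pool.Agent.DiagCoinv

variable {K : Type}

/-- substitution of the point `b` for the point `a`. -/
def tau (a b : ℕ) (x : ℕ) : ℕ := if x = a then b else x

/-- The algebra endomorphism replacing the variables at point `a` by those at point `b`. -/
def sub (a b : ℕ) : MvPolynomial (K × ℕ) ℂ →ₐ[ℂ] MvPolynomial (K × ℕ) ℂ :=
  rename (fun x : K × ℕ => (x.1, tau a b x.2))

/-- The monomial `x_j^c`. -/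
def mon (c : K →₀ ℕ) (j : ℕ) : MvPolynomial (K × ℕ) ℂ :=
  rename (fun κ : K => (κ, j)) (monomial c (1 : ℂ))

/-- Weighted power sums. -/
def pw (P : Finset ℕ) (w : ℕ → ℂ) (c : K →₀ ℕ) : MvPolynomial (K × ℕ) ℂ :=
  ∑ j ∈ P, C (w j) * mon c j

/-- ideal of the diagonal `x_i = x_j`. -/
def D (K : Type) (i j : ℕ) : Ideal (MvPolynomial (K × ℕ) ℂ) :=
  Ideal.span (Set.range fun κ : K => (X (κ, i) - X (κ, j) : MvPolynomial (K × ℕ) ℂ))

/-- product of the diagonal ideals. -/
def J (K : Type) (i : ℕ) (B : Finset ℕ) : Ideal (MvPolynomial (K × ℕ) ℂ) :=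
  ∏ j ∈ B, D K i j

/-- ideal generated by powers of power sums. -/
def pI (P : Finset ℕ) (w : ℕ → ℂ) (I : Finset (K →₀ ℕ)) (t : (K →₀ ℕ) → ℕ) :
    Ideal (MvPolynomial (K × ℕ) ℂ) :=
  Ideal.span ((fun c => pw P w c ^ t c) '' (I : Set (K →₀ ℕ)))

lemma sub_X (a b : ℕ) (κ : K) (j : ℕ) :
    sub a b (X (κ, j) : MvPolynomial (K × ℕ) ℂ) = X (κ, tau a b j) := by
  simp [sub]

lemma sub_sub_self (i l : ℕ) (f : MvPolynomial (K × ℕ) ℂ) :
    sub i l (sub i l f) = sub i l f := by
  unfold sub
  rw [rename_rename]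
  congr 1
  congr 1
  funext x
  simp only [Function.comp, tau]
  split_ifs <;> simp_all

lemma sub_sub_swap (i l : ℕ) (f : MvPolynomial (K × ℕ) ℂ) :
    sub i l (sub l i f) = sub i l f := by
  unfold sub
  rw [rename_rename]
  congr 1
  congr 1
  funext x
  simp only [Function.comp, tau]
  split_ifs <;> simp_all

lemma sub_mon (a b : ℕ) (c : K →₀ ℕ) (j : ℕ) :
    sub a b (mon c j) = mon c (tau a b j) := by
  unfold sub mon
  rw [rename_rename]
  rfl

lemma sub_pw_of_notMem {a : ℕ} (b : ℕ) {P : Finset ℕ} (ha : a ∉ P) (w : ℕ → ℂ) (c : K →₀ ℕ) :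
    sub a b (pw P w c) = pw P w c := by
  unfold pw
  rw [map_sum]
  refine Finset.sum_congr rfl fun j hj => ?_
  have : j ≠ a := fun h => ha (h ▸ hj)
  rw [map_mul, sub_mon, tau, if_neg this]
  congr 1
  simp [sub]

/-- merged weights. -/
def merge (w : ℕ → ℂ) (i l : ℕ) : ℕ → ℂ := Function.update w l (w l + w i)

lemma sub_pw_merge {i l : ℕ} {P : Finset ℕ} (hi : i ∈ P) (hl : l ∈ P) (hil : i ≠ l)
    (w : ℕ → ℂ) (c : K →₀ ℕ) :
    sub i l (pw P w c) = pw (P.erase i) (merge w i l) c := by
  unfold pw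
  rw [map_sum]
  have hl' : l ∈ P.erase i := Finset.mem_erase.2 ⟨hil.symm, hl⟩
  rw [← Finset.add_sum_erase P _ hi, ← Finset.add_sum_erase (P.erase i) _ hl',
    ← Finset.add_sum_erase (P.erase i) _ hl']
  have h1 : ∀ j, sub i l (C (w j) * mon c j : MvPolynomial (K × ℕ) ℂ)
      = C (w j) * mon c (tau i l j) := by
    intro j
    rw [map_mul, sub_mon]
    congr 1
    simp [sub]
  simp only [h1]
  have e1 : tau i l i = l := by simp [tau]
  have e2 : tau i l l = l := by simp [tau]
  rw [e1, e2, merge, Function.update_self, C_add]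
  rw [← add_assoc]
  congr 1
  · ring
  · refine Finset.sum_congr rfl fun j hj => ?_
    have hj1 : j ≠ l := (Finset.mem_erase.1 hj).1
    have hj2 : j ≠ i := (Finset.mem_erase.1 (Finset.mem_erase.1 hj).2).1
    rw [Function.update_of_ne hj1, tau, if_neg hj2]

lemma J_empty (i : ℕ) : J K i ∅ = ⊤ := by
  simp [J]

lemma J_insert (i : ℕ) {l : ℕ} {B : Finset ℕ} (h : l ∉ B) :
    J K i (insert l B) = D K i l * J K i B := by
  simp [J, Finset.prod_insert h]

lemma J_insert_le (i : ℕ) (l : ℕ) (B : Finset ℕ) :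
    J K i (insert l B) ≤ J K i B := by
  by_cases h : l ∈ B
  · rw [Finset.insert_eq_of_mem h]
  · rw [J_insert i h]
    exact (Ideal.mul_le_right : D K i l * J K i B ≤ J K i B)

lemma sub_mem_D (a b i j : ℕ) {f : MvPolynomial (K × ℕ) ℂ} (hf : f ∈ D K i j) :
    sub a b f ∈ D K (tau a b i) (tau a b j) := by
  have : D K i j ≤ (D K (tau a b i) (tau a b j)).comap (sub a b).toRingHom := by
    unfold D
    rw [Ideal.span_le]
    rintro _ ⟨κ, rfl⟩
    simp only [SetLike.mem_coe, Ideal.mem_comap]
    refine Ideal.subset_span ⟨κ, ?_⟩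
    simp [sub_X]
  exact this hf

lemma sub_mem_J (a b i : ℕ) (B : Finset ℕ) (ha : a ∉ B) {f : MvPolynomial (K × ℕ) ℂ}
    (hf : f ∈ J K i B) : sub a b f ∈ J K (tau a b i) B := by
  have key : J K i B ≤ (J K (tau a b i) B).comap (sub a b).toRingHom := by
    clear hf
    induction B using Finset.induction_on with
    | empty => rw [J_empty]; simp [J_empty]
    | insert l B hl ih =>
      have haB : a ∉ B := fun h => ha (Finset.mem_insert_of_mem h)
      have hal : l ≠ a := fun h => ha (h ▸ Finset.mem_insert_self _ _)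
      rw [J_insert i hl, J_insert _ hl, Ideal.mul_le]
      intro r hr s hs
      rw [Ideal.mem_comap, map_mul]
      refine Ideal.mul_mem_mul ?_ (ih haB hs)
      have := sub_mem_D a b i l hr
      rwa [show tau a b l = l by simp [tau, hal]] at this
  exact key hf

/-- `f - sub l i f` lies in the diagonal ideal. -/
lemma self_sub_mem_D (i l : ℕ) (f : MvPolynomial (K × ℕ) ℂ) : f - sub l i f ∈ D K i l := by
  induction f using MvPolynomial.induction_on with
  | C a => simp [sub]
  | add p q hp hq =>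
    rw [map_add]
    have : p + q - (sub l i p + sub l i q) = (p - sub l i p) + (q - sub l i q) := by ring
    rw [this]; exact Ideal.add_mem _ hp hq
  | mul_X p x hp =>
    obtain ⟨κ, j⟩ := x
    rw [map_mul, sub_X]
    have e : p * X (κ, j) - sub l i p * X (κ, tau l i j)
        = (p - sub l i p) * X (κ, j) + sub l i p * (X (κ, j) - X (κ, tau l i j)) := by ring
    rw [e]
    refine Ideal.add_mem _ (Ideal.mul_mem_right _ _ hp) (Ideal.mul_mem_left _ _ ?_)
    by_cases hj : j = l
    · subst hj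
      have : (X (κ, j) - X (κ, tau j i j) : MvPolynomial (K × ℕ) ℂ)
          = -(X (κ, i) - X (κ, j)) := by simp [tau]
      rw [this]
      exact neg_mem (Ideal.subset_span ⟨κ, rfl⟩)
    · simp [tau, hj]

lemma self_sub_mem_D_mul (i l j : ℕ) (hil : i ≠ l) (hjl : j ≠ l) {u : MvPolynomial (K × ℕ) ℂ}
    (hu : u ∈ D K i j) : u - sub l i u ∈ D K i l * D K i j := by
  have hu' := hu
  unfold D at hu'
  refine Submodule.span_induction (p := fun u _ => u - sub l i u ∈ D K i l * D K i j)
    ?_ ?_ ?_ ?_ hu'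
  · rintro _ ⟨κ, rfl⟩
    simp [sub_X, tau, hil, hjl]
  · simp
  · intro x y _ _ hx hy
    rw [map_add]
    have : x + y - (sub l i x + sub l i y) = (x - sub l i x) + (y - sub l i y) := by ring
    rw [this]; exact Ideal.add_mem _ hx hy
  · intro a x hxm hx
    rw [smul_eq_mul, map_mul]
    have e : a * x - sub l i a * sub l i x
        = a * (x - sub l i x) + (a - sub l i a) * sub l i x := by ring
    rw [e]
    refine Ideal.add_mem _ (Ideal.mul_mem_left _ _ hx)
      (Ideal.mul_mem_mul (self_sub_mem_D i l a) ?_)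
    have := sub_mem_D l i i j (show x ∈ D K i j from hxm)
    rwa [show tau l i i = i by simp [tau], show tau l i j = j by simp [tau, hjl]] at this

lemma self_sub_mem_J (i l : ℕ) (B : Finset ℕ) (hil : i ≠ l) (hl : l ∉ B)
    {f : MvPolynomial (K × ℕ) ℂ} (hf : f ∈ J K i B) :
    f - sub l i f ∈ J K i (insert l B) := by
  rw [J_insert i hl]
  induction B using Finset.induction_on generalizing f with
  | empty => rw [J_empty, Ideal.mul_top]; exact self_sub_mem_D i l f
  | insert j B hj ih =>
    have hlB : l ∉ B := fun h => hl (Finset.mem_insert_of_mem h)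
    have hjl : j ≠ l := fun h => hl (h ▸ Finset.mem_insert_self _ _)
    rw [J_insert i hj] at hf ⊢
    refine Submodule.mul_induction_on hf ?_ ?_
    · intro u hu g hg
      rw [map_mul]
      have e : u * g - sub l i u * sub l i g
        = u * (g - sub l i g) + (u - sub l i u) * sub l i g := by ring
      rw [e]
      refine Ideal.add_mem _ ?_ ?_
      · have h1 := Ideal.mul_mem_mul hu (ih hlB hg)
        have e2 : D K i j * (D K i l * J K i B) = D K i l * (D K i j * J K i B) := by
          rw [← mul_assoc, ← mul_assoc, mul_comm (D K i j)]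
        rwa [e2] at h1
      · have h2 := Ideal.mul_mem_mul (self_sub_mem_D_mul i l j hil hjl hu)
          (sub_mem_J l i i B hlB hg)
        rw [show tau l i i = i by simp [tau], mul_assoc] at h2
        exact h2
    · intro x y hx hy
      rw [map_add]
      have : x + y - (sub l i x + sub l i y) = (x - sub l i x) + (y - sub l i y) := by ring
      rw [this]; exact Ideal.add_mem _ hx hy

/-- (C1). -/
lemma mem_J_insert_of_sub_eq_zero (i l : ℕ) (B : Finset ℕ) (hil : i ≠ l) (hl : l ∉ B)
    {f : MvPolynomial (K × ℕ) ℂ} (hf : f ∈ J K i B) (h0 : sub i l f = 0) :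
    f ∈ J K i (insert l B) := by
  have h1 : sub l i f = 0 := by
    rw [← sub_sub_swap l i f, h0, map_zero]
  have := self_sub_mem_J i l B hil hl hf
  rwa [h1, sub_zero] at this

lemma sub_eq_zero_of_mem_D (i l : ℕ) {f : MvPolynomial (K × ℕ) ℂ} (hf : f ∈ D K i l) :
    sub i l f = 0 := by
  have : D K i l ≤ RingHom.ker (sub i l).toRingHom := by
    unfold D
    rw [Ideal.span_le]
    rintro _ ⟨κ, rfl⟩
    simp only [SetLike.mem_coe, RingHom.mem_ker]
    have : sub i l (X (κ, i) - X (κ, l) : MvPolynomial (K × ℕ) ℂ) = 0 := by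
      rw [map_sub, sub_X, sub_X]
      simp [tau]
    exact this
  exact this hf

lemma sub_eq_zero_of_mem_J_insert (i l : ℕ) (B : Finset ℕ) {f : MvPolynomial (K × ℕ) ℂ}
    (hl : l ∉ B) (hf : f ∈ J K i (insert l B)) : sub i l f = 0 := by
  rw [J_insert i hl] at hf
  have h : D K i l * J K i B ≤ D K i l := Ideal.mul_le_left
  exact sub_eq_zero_of_mem_D i l (h hf)

end Pool.Agent.DiagCoinv
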