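import Pool.Agent.DiagCoinv.Transfer

set_option autoImplicit false

open MvPolynomial

noncomputable section

namespace Pool.Agent.DiagCoinv

variable {k n : ℕ}

/-- the multigrading weight. -/
def wt (k n : ℕ) : Fin k × Fin n → (Fin k → ℕ) := fun x => Pi.single x.1 (1 : ℕ)

/-- multihomogeneous part. -/
def Dg (n : ℕ) (a : Fin k → ℕ) : Submodule ℂ (MvPolynomial (Fin k × Fin n) ℂ) :=
  weightedHomogeneousSubmodule ℂ (wt k n) a

/-- fixed polynomials. -/
def Fx (k : ℕ) (H : Subgroup (Equiv.Perm (Fin n))) :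
    Submodule ℂ (MvPolynomial (Fin k × Fin n) ℂ) :=
  ⨅ σ ∈ H, LinearMap.ker
    (AlgHom.toLinearMap (MvPolynomial.rename (R := ℂ)
      (fun x : Fin k × Fin n => (x.1, σ x.2))) - LinearMap.id)

lemma mem_Fx {H : Subgroup (Equiv.Perm (Fin n))} {f : MvPolynomial (Fin k × Fin n) ℂ} :
    f ∈ Fx k H ↔ ∀ σ ∈ H, ren k σ f = f := by
  unfold Fx
  simp only [Submodule.mem_iInf, LinearMap.mem_ker, LinearMap.sub_apply, LinearMap.id_apply,
    sub_eq_zero]
  rfl

lemma ren_mem_Dg (σ : Equiv.Perm (Fin n)) {a : Fin k → ℕ} {f : MvPolynomial (Fin k × Fin n) ℂ}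
    (hf : f ∈ Dg n a) : ren k σ f ∈ Dg n a := by
  intro d hd
  obtain ⟨u, hu, hu2⟩ := coeff_rename_ne_zero _ _ _ hd
  have h1 : Finsupp.weight (wt k n) u = a := hf hu2
  rw [← hu, ← h1, Finsupp.weight_apply, Finsupp.weight_apply, Finsupp.sum_mapDomain_index]
  · rfl
  · intro b; simp
  · intro b m1 m2; rw [add_smul]

lemma Dg_le (a : Fin k → ℕ) : Dg n a ≤ homogeneousSubmodule (Fin k × Fin n) ℂ (∑ i, a i) := by
  intro f hf
  rw [mem_homogeneousSubmodule]
  intro d hd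
  have h1 : Finsupp.weight (wt k n) d = a := hf hd
  rw [← h1, Finsupp.weight_apply, Finsupp.weight_apply]
  simp only [Finsupp.sum, Finset.sum_apply, Pi.smul_apply, wt]
  rw [Finset.sum_comm]
  refine Finset.sum_congr rfl fun x _ => ?_
  rw [← Finset.smul_sum]
  simp

instance finiteDg (a : Fin k → ℕ) : FiniteDimensional ℂ (Dg n a) := by
  have h1 := homogeneousSubmodule_fg (σ := Fin k × Fin n) (R := ℂ) (∑ i, a i)
  have : FiniteDimensional ℂ (homogeneousSubmodule (Fin k × Fin n) ℂ (∑ i, a i)) :=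
    Module.Finite.iff_fg.2 h1
  exact Submodule.finiteDimensional_of_le (Dg_le a)

/-- `W`. -/
def W (H : Subgroup (Equiv.Perm (Fin n))) (a : Fin k → ℕ) :
    Submodule ℂ (MvPolynomial (Fin k × Fin n) ℂ) := Dg n a ⊓ Fx k H

instance finiteW (H : Subgroup (Equiv.Perm (Fin n))) (a : Fin k → ℕ) :
    FiniteDimensional ℂ (W H a) := Submodule.finiteDimensional_of_le inf_le_left

/-- multigraded component. -/
def wc (n : ℕ) (a : Fin k → ℕ) :
    MvPolynomial (Fin k × Fin n) ℂ →ₗ[ℂ] MvPolynomial (Fin k × Fin n) ℂ :=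
  weightedHomogeneousComponent (wt k n) a

lemma wc_mem (a : Fin k → ℕ) (f : MvPolynomial (Fin k × Fin n) ℂ) : wc n a f ∈ Dg n a :=
  weightedHomogeneousComponent_mem _ _ _

lemma wc_self {a : Fin k → ℕ} {f : MvPolynomial (Fin k × Fin n) ℂ} (hf : f ∈ Dg n a) :
    wc n a f = f := weightedHomogeneousComponent_eq_self hf

lemma wc_mul_le {q : MvPolynomial (Fin k × Fin n) ℂ} {d : Fin k → ℕ} (hq : q ∈ Dg n d)
    {e : Fin k → ℕ} (hde : d ≤ e) (f : MvPolynomial (Fin k × Fin n) ℂ) :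
    wc n e (q * f) = q * wc n (e - d) f := by
  let _ := weightedGradedAlgebra ℂ (wt k n)
  have h := DirectSum.coe_decompose_mul_of_left_mem_of_le
    (weightedHomogeneousSubmodule ℂ (wt k n)) (a := q) (b := f) (i := d) hq hde
  have e1 : ∀ (g : MvPolynomial (Fin k × Fin n) ℂ) (m : Fin k → ℕ),
      (DirectSum.decompose (weightedHomogeneousSubmodule ℂ (wt k n)) g m :
        MvPolynomial (Fin k × Fin n) ℂ)
        = wc n m g := fun g m => weightedDecomposition.decompose'_apply ℂ (wt k n) g m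
  rw [e1, e1] at h
  exact h

lemma wc_mul_not_le {q : MvPolynomial (Fin k × Fin n) ℂ} {d : Fin k → ℕ} (hq : q ∈ Dg n d)
    {e : Fin k → ℕ} (hde : ¬ d ≤ e) (f : MvPolynomial (Fin k × Fin n) ℂ) :
    wc n e (q * f) = 0 := by
  let _ := weightedGradedAlgebra ℂ (wt k n)
  have h := DirectSum.coe_decompose_mul_of_left_mem_of_not_le
    (weightedHomogeneousSubmodule ℂ (wt k n)) (a := q) (b := f) (i := d) hq hde
  have e1 : ∀ (g : MvPolynomial (Fin k × Fin n) ℂ) (m : Fin k → ℕ),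
      (DirectSum.decompose (weightedHomogeneousSubmodule ℂ (wt k n)) g m :
        MvPolynomial (Fin k × Fin n) ℂ)
        = wc n m g := fun g m => weightedDecomposition.decompose'_apply ℂ (wt k n) g m
  rw [e1] at h
  exact h

lemma ps_mem_Dg (c : Fin k →₀ ℕ) : ps n c ∈ Dg n ⇑c := by
  unfold ps
  refine Submodule.sum_mem _ fun j _ => ?_
  rw [rename_monomial]
  apply isWeightedHomogeneous_monomial
  rw [Finsupp.weight_apply, Finsupp.sum_mapDomain_index]
  · funext i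
    rw [Finsupp.sum_fintype _ _ (by simp), Finset.sum_apply]
    simp [wt, Pi.single_apply]
  · intro b; simp
  · intro b m1 m2; rw [add_smul]

open scoped Classical in
/-- the elements of a subgroup. -/
def els (H : Subgroup (Equiv.Perm (Fin n))) : Finset (Equiv.Perm (Fin n)) :=
  Finset.univ.filter (fun σ => σ ∈ H)

lemma mem_els {H : Subgroup (Equiv.Perm (Fin n))} {σ : Equiv.Perm (Fin n)} :
    σ ∈ els H ↔ σ ∈ H := by
  simp [els]

lemma card_els_ne (H : Subgroup (Equiv.Perm (Fin n))) : ((els H).card : ℂ) ≠ 0 := by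
  have : 0 < (els H).card := Finset.card_pos.2 ⟨1, mem_els.2 H.one_mem⟩
  exact_mod_cast this.ne'

/-- averaging. -/
def av (H : Subgroup (Equiv.Perm (Fin n))) (f : MvPolynomial (Fin k × Fin n) ℂ) :
    MvPolynomial (Fin k × Fin n) ℂ :=
  C ((els H).card : ℂ)⁻¹ * ∑ σ ∈ els H, ren k σ f

lemma ren_C (σ : Equiv.Perm (Fin n)) (r : ℂ) :
    ren k σ (C r : MvPolynomial (Fin k × Fin n) ℂ) = C r := by
  simp [ren]

lemma av_mem_Fx (H : Subgroup (Equiv.Perm (Fin n))) (f : MvPolynomial (Fin k × Fin n) ℂ) :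
    av H f ∈ Fx k H := by
  rw [mem_Fx]
  intro τ hτ
  unfold av
  rw [map_mul (ren k τ), ren_C, map_sum (ren k τ)]
  congr 1
  simp only [ren_mul]
  refine Finset.sum_bij' (fun σ _ => τ * σ) (fun σ _ => τ⁻¹ * σ) ?_ ?_ ?_ ?_ ?_
  · intro σ hσ; exact mem_els.2 (H.mul_mem hτ (mem_els.1 hσ))
  · intro σ hσ; exact mem_els.2 (H.mul_mem (H.inv_mem hτ) (mem_els.1 hσ))
  · intro σ _; simp
  · intro σ _; simp
  · intro σ _; rfl

lemma av_of_mem {H : Subgroup (Equiv.Perm (Fin n))} {f : MvPolynomial (Fin k × Fin n) ℂ}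
    (hf : f ∈ Fx k H) : av H f = f := by
  rw [mem_Fx] at hf
  unfold av
  rw [Finset.sum_congr rfl fun σ hσ => hf σ (mem_els.1 hσ), Finset.sum_const, nsmul_eq_mul,
    ← mul_assoc, ← map_natCast (C : ℂ →+* MvPolynomial (Fin k × Fin n) ℂ), ← C_mul,
    inv_mul_cancel₀ (card_els_ne H), C_1, one_mul]

lemma av_add (H : Subgroup (Equiv.Perm (Fin n))) (f g : MvPolynomial (Fin k × Fin n) ℂ) :
    av H (f + g) = av H f + av H g := by
  unfold av
  simp only [map_add, Finset.sum_add_distrib, mul_add]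

lemma av_ps_mul (H : Subgroup (Equiv.Perm (Fin n))) (c : Fin k →₀ ℕ)
    (f : MvPolynomial (Fin k × Fin n) ℂ) : av H (ps n c * f) = ps n c * av H f := by
  unfold av
  simp only [map_mul, ren_ps, ← Finset.mul_sum]
  ring

lemma av_mem_Dg (H : Subgroup (Equiv.Perm (Fin n))) {a : Fin k → ℕ}
    {f : MvPolynomial (Fin k × Fin n) ℂ} (hf : f ∈ Dg n a) : av H f ∈ Dg n a := by
  unfold av
  rw [← smul_eq_C_mul]
  exact Submodule.smul_mem _ _ (Submodule.sum_mem _ fun σ _ => ren_mem_Dg σ hf)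

lemma av_mem_V (H : Subgroup (Equiv.Perm (Fin n))) {I : Finset (Fin k →₀ ℕ)}
    {f : MvPolynomial (Fin k × Fin n) ℂ} (hf : f ∈ V n I) : av H f ∈ V n I := by
  unfold av
  refine Ideal.mul_mem_left _ _ (Ideal.sum_mem _ fun σ _ => ?_)
  have : V n I ≤ (V n I).comap (ren k σ).toRingHom := by
    conv_lhs => rw [V]
    rw [Ideal.span_le]
    rintro _ ⟨c, hc, rfl⟩
    refine Ideal.subset_span ⟨c, hc, ?_⟩
    exact (ren_ps σ c).symm
  exact this hf

lemma V_empty : V n (∅ : Finset (Fin k →₀ ℕ)) = ⊥ := by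
  simp [V]

lemma V_insert (c : Fin k →₀ ℕ) (I : Finset (Fin k →₀ ℕ)) :
    V n (insert c I) = Ideal.span {ps n c} ⊔ V n I := by
  unfold V
  rw [Finset.coe_insert, Set.image_insert_eq, Ideal.span_insert]

lemma wc_mem_V (I : Finset (Fin k →₀ ℕ)) (a : Fin k → ℕ) {f : MvPolynomial (Fin k × Fin n) ℂ}
    (hf : f ∈ V n I) : wc n a f ∈ V n I := by
  have hf' := hf
  unfold V at hf'
  have key : ∀ g, wc n a (g * f) ∈ V n I := by
    refine Submodule.span_induction (p := fun f _ => ∀ g, wc n a (g * f) ∈ V n I)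
      ?_ ?_ ?_ ?_ hf'
    · rintro _ ⟨c, hc, rfl⟩ g
      simp only
      rw [mul_comm]
      by_cases hle : (⇑c : Fin k → ℕ) ≤ a
      · rw [wc_mul_le (ps_mem_Dg c) hle]
        exact Ideal.mul_mem_right _ _ (Ideal.subset_span ⟨c, hc, rfl⟩)
      · rw [wc_mul_not_le (ps_mem_Dg c) hle]
        exact Submodule.zero_mem _
    · intro g; rw [mul_zero, map_zero]; exact Submodule.zero_mem _
    · intro x y _ _ hx hy g
      rw [mul_add, map_add]; exact Ideal.add_mem _ (hx g) (hy g)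
    · intro b x _ hx g
      rw [smul_eq_mul, ← mul_assoc]; exact hx _
  have := key 1
  rwa [one_mul] at this

/-- dimension of the degree-`a` fixed part modulo `V I`. -/
def hf (H : Subgroup (Equiv.Perm (Fin n))) (I : Finset (Fin k →₀ ℕ)) (a : Fin k → ℕ) : ℤ :=
  (Module.finrank ℂ (W H a) : ℤ)
    - (Module.finrank ℂ ↥(W H a ⊓ Submodule.restrictScalars ℂ (V n I)) : ℤ)

lemma ps_ne_zero (hn : 1 ≤ n) (c : Fin k →₀ ℕ) : (ps n c : MvPolynomial (Fin k × Fin n) ℂ) ≠ 0 := by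
  intro h
  have h1 := congrArg (MvPolynomial.eval (fun _ => (1 : ℂ))) h
  unfold ps at h1
  rw [map_sum] at h1
  simp only [eval_rename] at h1
  simp [eval_monomial] at h1
  omega

lemma degree_eq_sum (c : Fin k →₀ ℕ) : c.degree = ∑ i, c i := by
  rw [Finsupp.degree_eq_sum]

lemma hf_insert_not_le (H : Subgroup (Equiv.Perm (Fin n))) (I : Finset (Fin k →₀ ℕ))
    (c0 : Fin k →₀ ℕ) (a : Fin k → ℕ) (hle : ¬ (⇑c0 : Fin k → ℕ) ≤ a) :
    hf H (insert c0 I) a = hf H I a := by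
  unfold hf
  have : W H a ⊓ Submodule.restrictScalars ℂ (V n (insert c0 I))
      = W H a ⊓ Submodule.restrictScalars ℂ (V n I) := by
    apply le_antisymm
    · rintro f ⟨hfW, hfV⟩
      refine ⟨hfW, ?_⟩
      rw [SetLike.mem_coe, Submodule.restrictScalars_mem] at hfV ⊢
      rw [V_insert] at hfV
      obtain ⟨x, hx, v, hv, rfl⟩ := Submodule.mem_sup.1 hfV
      obtain ⟨g, rfl⟩ := Ideal.mem_span_singleton.1 hx
      have h1 := wc_self hfW.1
      rw [map_add, wc_mul_not_le (ps_mem_Dg c0) hle, zero_add] at h1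
      rw [← h1]
      exact wc_mem_V I a hv
    · refine inf_le_inf_left _ ?_
      intro f hf
      rw [Submodule.restrictScalars_mem] at hf ⊢
      rw [V_insert]
      exact Submodule.mem_sup_right hf
  rw [this]

lemma hf_insert_le (hn : 1 ≤ n) (H : Subgroup (Equiv.Perm (Fin n))) (I : Finset (Fin k →₀ ℕ))
    (c0 : Fin k →₀ ℕ) (hI : ∀ c ∈ I, c ≠ 0) (hc0 : c0 ∉ I) (hc0' : c0 ≠ 0)
    (a : Fin k → ℕ) (ha : ∑ i, a i ≤ n) (hle : (⇑c0 : Fin k → ℕ) ≤ a) :
    hf H (insert c0 I) a = hf H I a - hf H I (a - ⇑c0) := by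
  classical
  set μ : MvPolynomial (Fin k × Fin n) ℂ →ₗ[ℂ] MvPolynomial (Fin k × Fin n) ℂ :=
    LinearMap.mulLeft ℂ (ps n c0) with hμ
  have hμa : ∀ f, μ f = ps n c0 * f := fun f => rfl
  have hinj : Function.Injective μ := by
    intro f g hfg
    rw [hμa, hμa] at hfg
    exact mul_left_cancel₀ (ps_ne_zero hn c0) hfg
  have hac : (⇑c0 : Fin k → ℕ) + (a - ⇑c0) = a := add_tsub_cancel_of_le hle
  set A := W H a ⊓ Submodule.restrictScalars ℂ (V n I) with hA
  set B := (W H (a - ⇑c0)).map μ with hB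
  have hBW : B ≤ W H a := by
    rintro _ ⟨f, hf, rfl⟩
    refine ⟨?_, ?_⟩
    · have h1 := IsWeightedHomogeneous.mul (w := wt k n) (ps_mem_Dg (n := n) c0) hf.1
      rw [hac] at h1
      exact h1
    · rw [SetLike.mem_coe, mem_Fx]
      intro σ hσ
      rw [hμa, map_mul (ren k σ), ren_ps, mem_Fx.1 hf.2 σ hσ]
  have hsup : W H a ⊓ Submodule.restrictScalars ℂ (V n (insert c0 I)) = A ⊔ B := by
    apply le_antisymm
    · rintro f ⟨hfW, hfV⟩
      rw [SetLike.mem_coe, Submodule.restrictScalars_mem, V_insert] at hfV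
      obtain ⟨x, hx, v, hv, hxv⟩ := Submodule.mem_sup.1 hfV
      obtain ⟨g, rfl⟩ := Ideal.mem_span_singleton.1 hx
      have h1 := wc_self hfW.1
      rw [← hxv, map_add, wc_mul_le (ps_mem_Dg c0) hle, hxv] at h1
      have h2 := av_of_mem hfW.2
      rw [← h1, av_add, av_ps_mul, h1] at h2
      rw [← h2]
      refine Submodule.mem_sup.2 ⟨av H (wc n a v), ⟨⟨av_mem_Dg H (wc_mem a v), av_mem_Fx H _⟩,
        av_mem_V H (wc_mem_V I a hv)⟩, ps n c0 * av H (wc n (a - ⇑c0) g),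
        ⟨av H (wc n (a - ⇑c0) g), ⟨av_mem_Dg H (wc_mem _ _), av_mem_Fx H _⟩, rfl⟩, add_comm _ _⟩
    · refine sup_le ?_ ?_
      · refine inf_le_inf_left _ ?_
        intro f hf
        rw [Submodule.restrictScalars_mem] at hf ⊢
        rw [V_insert]
        exact Submodule.mem_sup_right hf
      · refine le_inf hBW ?_
        rintro _ ⟨f, hf, rfl⟩
        rw [Submodule.restrictScalars_mem, V_insert]
        exact Submodule.mem_sup_left (Ideal.mem_span_singleton.2 ⟨f, rfl⟩)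
  have hinf : A ⊓ B = (W H (a - ⇑c0) ⊓ Submodule.restrictScalars ℂ (V n I)).map μ := by
    apply le_antisymm
    · rintro _ ⟨⟨_, hV⟩, ⟨f, hf, rfl⟩⟩
      refine ⟨f, ⟨hf, ?_⟩, rfl⟩
      rw [SetLike.mem_coe, Submodule.restrictScalars_mem] at hV ⊢
      rw [hμa] at hV
      refine reg_V I c0 f (∑ i, (a - ⇑c0) i) hI hc0 hc0' (Dg_le _ hf.1) ?_ hV
      have : ∑ i, (a - ⇑c0) i + c0.degree = ∑ i, a i := by
        rw [degree_eq_sum, ← Finset.sum_add_distrib]
        refine Finset.sum_congr rfl fun i _ => ?_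
        have h5 : c0 i ≤ a i := hle i
        simp only [Pi.sub_apply]
        omega
      omega
    · rintro _ ⟨f, ⟨hf, hV⟩, rfl⟩
      have hb : μ f ∈ B := ⟨f, hf, rfl⟩
      refine ⟨⟨hBW hb, ?_⟩, hb⟩
      rw [SetLike.mem_coe, Submodule.restrictScalars_mem] at hV ⊢
      exact Ideal.mul_mem_left _ _ hV
  have : FiniteDimensional ℂ A := Submodule.finiteDimensional_of_le inf_le_left
  have : FiniteDimensional ℂ B := Submodule.finiteDimensional_of_le hBW
  have hdim := Submodule.finrank_sup_add_finrank_inf_eq A B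
  rw [hinf] at hdim
  have e1 : Module.finrank ℂ B = Module.finrank ℂ (W H (a - ⇑c0)) :=
    (LinearEquiv.finrank_eq (Submodule.equivMapOfInjective μ hinj _)).symm
  have e2 : Module.finrank ℂ ↥((W H (a - ⇑c0) ⊓ Submodule.restrictScalars ℂ (V n I)).map μ)
      = Module.finrank ℂ ↥(W H (a - ⇑c0) ⊓ Submodule.restrictScalars ℂ (V n I)) :=
    (LinearEquiv.finrank_eq (Submodule.equivMapOfInjective μ hinj _)).symm
  rw [e1, e2] at hdim
  unfold hf
  rw [hsup]
  have : (Module.finrank ℂ ↥(A ⊔ B) : ℤ)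
      + (Module.finrank ℂ ↥(W H (a - ⇑c0) ⊓ Submodule.restrictScalars ℂ (V n I)) : ℤ)
      = (Module.finrank ℂ A : ℤ) + (Module.finrank ℂ (W H (a - ⇑c0)) : ℤ) := by
    exact_mod_cast hdim
  linarith

/-- Hilbert series. -/
def PS (H : Subgroup (Equiv.Perm (Fin n))) (I : Finset (Fin k →₀ ℕ)) : MvPowerSeries (Fin k) ℤ :=
  fun a => hf H I ⇑a

lemma coeff_PS (H : Subgroup (Equiv.Perm (Fin n))) (I : Finset (Fin k →₀ ℕ)) (a : Fin k →₀ ℕ) :
    MvPowerSeries.coeff a (PS H I) = hf H I ⇑a := rfl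

/-- product of `1 - X^c`. -/
def DD (I : Finset (Fin k →₀ ℕ)) : MvPowerSeries (Fin k) ℤ :=
  ∏ c ∈ I, (1 - MvPowerSeries.monomial c 1)

lemma coeff_PS_eq (hn : 1 ≤ n) (H : Subgroup (Equiv.Perm (Fin n))) (I : Finset (Fin k →₀ ℕ))
    (hI : ∀ c ∈ I, c ≠ 0) : ∀ a : Fin k →₀ ℕ, a.degree ≤ n →
    MvPowerSeries.coeff a (PS H I) = MvPowerSeries.coeff a (DD I * PS H ∅) := by
  classical
  induction I using Finset.induction_on with
  | empty => intro a _; simp [DD]
  | insert c0 I hc0 ih =>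
    intro a ha
    have hI' : ∀ c ∈ I, c ≠ 0 := fun c hc => hI c (Finset.mem_insert_of_mem hc)
    have ih' := ih hI'
    have hc0' := hI c0 (Finset.mem_insert_self _ _)
    have e1 : DD (insert c0 I) * PS H ∅ = DD I * PS H ∅
        - MvPowerSeries.monomial c0 1 * (DD I * PS H ∅) := by
      unfold DD
      rw [Finset.prod_insert hc0]; ring
    rw [e1, map_sub, MvPowerSeries.coeff_monomial_mul, ← ih' a ha, coeff_PS, coeff_PS]
    split_ifs with hle
    · rw [one_mul, ← ih' (a - c0) ?_, coeff_PS]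
      · rw [hf_insert_le hn H I c0 hI' hc0 hc0' ⇑a (by rwa [← degree_eq_sum]) hle]
        rfl
      · refine le_trans ?_ ha
        exact Finsupp.degree_mono tsub_le_self
    · rw [sub_zero]
      exact hf_insert_not_le H I c0 ⇑a hle

end Pool.Agent.DiagCoinv
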