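import Pool.Agent.DiagCoinv.Count

set_option autoImplicit false

open MvPolynomial

noncomputable section

namespace Pool.Agent.DiagCoinv

variable {k n : ℕ}

/-- the ideal generated by invariants without constant term. -/
def IL (k n : ℕ) : Ideal (MvPolynomial (Fin k × Fin n) ℂ) :=
  Ideal.span {p : MvPolynomial (Fin k × Fin n) ℂ |
      (∀ σ : Equiv.Perm (Fin n),
        MvPolynomial.rename (fun x : Fin k × Fin n => (x.1, σ x.2)) p = p) ∧
      MvPolynomial.coeff 0 p = 0}

/-- all nonzero exponents bounded by `n`. -/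
def allc (k n : ℕ) : Finset (Fin k →₀ ℕ) :=
  ((Finset.univ : Finset (Fin k → Fin (n + 1))).image
    (fun b => Finsupp.equivFunOnFinite.symm (fun i => (b i : ℕ)))).erase 0

lemma mem_allc {c : Fin k →₀ ℕ} (hc : c ≠ 0) (h : ∀ i, c i ≤ n) : c ∈ allc k n := by
  refine Finset.mem_erase.2 ⟨hc, Finset.mem_image.2
    ⟨fun i => ⟨c i, Nat.lt_succ_of_le (h i)⟩, Finset.mem_univ _, ?_⟩⟩
  ext i
  rfl

lemma ne_zero_of_mem_allc {c : Fin k →₀ ℕ} (h : c ∈ allc k n) : c ≠ 0 :=
  (Finset.mem_erase.1 h).1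

lemma coeff_zero_ps {c : Fin k →₀ ℕ} (hc : c ≠ 0) : coeff 0 (ps n c) = 0 := by
  by_contra hne
  have h1 := ps_mem_Dg (n := n) c hne
  apply hc
  ext i
  have := congrFun h1 i
  simpa using this.symm

lemma V_le_IL : V n (allc k n) ≤ IL k n := by
  rw [V, Ideal.span_le]
  rintro _ ⟨c, hc, rfl⟩
  exact Ideal.subset_span ⟨fun σ => ren_ps σ c, coeff_zero_ps (ne_zero_of_mem_allc hc)⟩

lemma IL_le_Vinf : IL k n ≤ Vinf k n := by
  rw [IL, Ideal.span_le]
  rintro p ⟨h1, h2⟩
  exact invariant_mem_Vinf h1 h2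

lemma wc_mem_V_of_Vinf {a : Fin k → ℕ} (ha : ∑ i, a i ≤ n) {f : MvPolynomial (Fin k × Fin n) ℂ}
    (hf : f ∈ Vinf k n) : wc n a f ∈ V n (allc k n) := by
  have hf' := hf
  unfold Vinf at hf'
  have key : ∀ g, wc n a (g * f) ∈ V n (allc k n) := by
    refine Submodule.span_induction (p := fun f _ => ∀ g, wc n a (g * f) ∈ V n (allc k n))
      ?_ ?_ ?_ ?_ hf'
    · rintro _ ⟨c, hc, rfl⟩ g
      simp only
      rw [mul_comm]
      by_cases hle : (⇑c : Fin k → ℕ) ≤ a
      · rw [wc_mul_le (ps_mem_Dg c) hle]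
        refine Ideal.mul_mem_right _ _ (Ideal.subset_span ⟨c, mem_allc hc fun i => ?_, rfl⟩)
        refine le_trans (hle i) (le_trans ?_ ha)
        exact Finset.single_le_sum (f := a) (fun _ _ => Nat.zero_le _) (Finset.mem_univ i)
      · rw [wc_mul_not_le (ps_mem_Dg c) hle]
        exact Submodule.zero_mem _
    · intro g; rw [mul_zero, map_zero]; exact Submodule.zero_mem _
    · intro x y _ _ hx hy g
      rw [mul_add, map_add]; exact Ideal.add_mem _ (hx g) (hy g)
    · intro b x _ hx g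
      rw [smul_eq_mul, ← mul_assoc]; exact hx _
  have := key 1
  rwa [one_mul] at this

lemma W_inf_IL (H : Subgroup (Equiv.Perm (Fin n))) {a : Fin k → ℕ} (ha : ∑ i, a i ≤ n) :
    W H a ⊓ Submodule.restrictScalars ℂ (IL k n)
      = W H a ⊓ Submodule.restrictScalars ℂ (V n (allc k n)) := by
  apply le_antisymm
  · rintro f ⟨hfW, hfI⟩
    refine ⟨hfW, ?_⟩
    rw [SetLike.mem_coe, Submodule.restrictScalars_mem] at hfI ⊢
    have := wc_mem_V_of_Vinf ha (IL_le_Vinf hfI)
    rwa [wc_self hfW.1] at this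
  · refine inf_le_inf_left _ ?_
    intro f hf
    exact V_le_IL hf

lemma hf_empty (H : Subgroup (Equiv.Perm (Fin n))) (a : Fin k → ℕ) :
    hf H ∅ a = (Module.finrank ℂ (W H a) : ℤ) := by
  unfold hf
  have : W H a ⊓ Submodule.restrictScalars ℂ (V n (∅ : Finset (Fin k →₀ ℕ))) = ⊥ := by
    rw [V_empty, Submodule.restrictScalars_bot, inf_bot_eq]
  rw [this, finrank_bot]
  simp

lemma coeff_zero_of_mem_V {f : MvPolynomial (Fin k × Fin n) ℂ} (hf : f ∈ V n (allc k n)) :
    coeff 0 f = 0 := by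
  have : V n (allc k n) ≤ RingHom.ker (constantCoeff (σ := Fin k × Fin n) (R := ℂ)) := by
    rw [V, Ideal.span_le]
    rintro _ ⟨c, hc, rfl⟩
    exact coeff_zero_ps (ne_zero_of_mem_allc hc)
  exact this hf

lemma eq_C_of_mem_Dg_zero {f : MvPolynomial (Fin k × Fin n) ℂ} (hf : f ∈ Dg n (0 : Fin k → ℕ)) :
    f = C (coeff 0 f) := by
  have h := Dg_le _ hf
  simp only [Pi.zero_apply, Finset.sum_const_zero] at h
  have := homogeneousComponent_eq_self h
  rw [homogeneousComponent_zero] at this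
  exact this.symm

lemma hf_top (a : Fin k → ℕ) (ha : ∑ i, a i ≤ n) :
    hf (⊤ : Subgroup (Equiv.Perm (Fin n))) (allc k n) a = if a = 0 then 1 else 0 := by
  unfold hf
  split_ifs with h0
  · subst h0
    have h1 : W (⊤ : Subgroup (Equiv.Perm (Fin n))) (0 : Fin k → ℕ)
        ⊓ Submodule.restrictScalars ℂ (V n (allc k n)) = ⊥ := by
      rw [eq_bot_iff]
      rintro f ⟨hfW, hfV⟩
      rw [SetLike.mem_coe, Submodule.restrictScalars_mem] at hfV
      rw [Submodule.mem_bot, eq_C_of_mem_Dg_zero hfW.1, coeff_zero_of_mem_V hfV, C_0]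
    have h2 : W (⊤ : Subgroup (Equiv.Perm (Fin n))) (0 : Fin k → ℕ)
        = Submodule.span ℂ {(1 : MvPolynomial (Fin k × Fin n) ℂ)} := by
      apply le_antisymm
      · rintro f hfW
        rw [Submodule.mem_span_singleton]
        refine ⟨coeff 0 f, ?_⟩
        rw [smul_eq_C_mul, mul_one]
        exact (eq_C_of_mem_Dg_zero hfW.1).symm
      · rw [Submodule.span_singleton_le_iff_mem]
        refine ⟨isWeightedHomogeneous_one ℂ _, ?_⟩
        rw [SetLike.mem_coe, mem_Fx]
        intro σ _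
        exact map_one _
    rw [h1, finrank_bot, h2, finrank_span_singleton one_ne_zero]
    simp
  · have h1 : W (⊤ : Subgroup (Equiv.Perm (Fin n))) a
        ⊓ Submodule.restrictScalars ℂ (V n (allc k n)) = W (⊤ : Subgroup (Equiv.Perm (Fin n))) a := by
      apply inf_eq_left.2
      intro f hfW
      rw [Submodule.restrictScalars_mem]
      have hinv : f ∈ Vinf k n := by
        apply invariant_mem_Vinf
        · intro σ
          exact mem_Fx.1 hfW.2 σ (Subgroup.mem_top σ)
        · by_contra hne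
          have h3 : Finsupp.weight (wt k n) 0 = a := hfW.1 hne
          rw [map_zero] at h3
          exact h0 h3.symm
      have := wc_mem_V_of_Vinf ha hinv
      rwa [wc_self hfW.1] at this
    rw [h1, sub_self]

lemma coeff_mul_congr {A A' B : MvPowerSeries (Fin k) ℤ} {N : ℕ}
    (h : ∀ b : Fin k →₀ ℕ, b.degree ≤ N → MvPowerSeries.coeff b A = MvPowerSeries.coeff b A')
    (a : Fin k →₀ ℕ) (ha : a.degree ≤ N) :
    MvPowerSeries.coeff a (A * B) = MvPowerSeries.coeff a (A' * B) := by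
  classical
  rw [MvPowerSeries.coeff_mul, MvPowerSeries.coeff_mul]
  refine Finset.sum_congr rfl fun p hp => ?_
  rw [h p.1]
  have := Finset.HasAntidiagonal.mem_antidiagonal.1 hp
  rw [← this, map_add] at ha
  omega

lemma series_identity (hn : 1 ≤ n) (H : Subgroup (Equiv.Perm (Fin n))) (a : Fin k →₀ ℕ)
    (ha : a.degree ≤ n) :
    MvPowerSeries.coeff a (PS H (allc k n) * PS (⊤ : Subgroup (Equiv.Perm (Fin n))) ∅) = MvPowerSeries.coeff a (PS H ∅) := by
  have h1 := coeff_mul_congr (B := PS (⊤ : Subgroup (Equiv.Perm (Fin n))) ∅)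
    (coeff_PS_eq hn H (allc k n) fun c hc => ne_zero_of_mem_allc hc) a ha
  have h2 := coeff_mul_congr (B := PS H ∅)
    (coeff_PS_eq hn (⊤ : Subgroup (Equiv.Perm (Fin n))) (allc k n)
      fun c hc => ne_zero_of_mem_allc hc) a ha
  have h3 : ∀ b : Fin k →₀ ℕ, b.degree ≤ n →
      MvPowerSeries.coeff b (PS (⊤ : Subgroup (Equiv.Perm (Fin n))) (allc k n))
        = MvPowerSeries.coeff b (1 : MvPowerSeries (Fin k) ℤ) := by
    classical
    intro b hb
    rw [coeff_PS, hf_top _ (by rwa [← degree_eq_sum]), MvPowerSeries.coeff_one]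
    by_cases hb0 : b = 0
    · subst hb0; simp
    · have : (⇑b : Fin k → ℕ) ≠ 0 := fun h => hb0 (DFunLike.coe_injective h)
      rw [if_neg hb0, if_neg this]
  have h4 := coeff_mul_congr (B := PS H ∅) h3 a ha
  rw [h1]
  have e1 : DD (allc k n) * PS H ∅ * PS (⊤ : Subgroup (Equiv.Perm (Fin n))) ∅
      = DD (allc k n) * PS (⊤ : Subgroup (Equiv.Perm (Fin n))) ∅ * PS H ∅ := by ring
  rw [e1, ← h2, h4, one_mul]

theorem final (hn : 1 ≤ n) (H : Subgroup (Equiv.Perm (Fin n))) (a : Fin k → ℕ)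
    (ha : ∑ i, a i ≤ n) :
    ∑ b : Fin k → Fin (n + 1),
      (if (∀ i, (b i : ℕ) ≤ a i) then
        (((Module.finrank ℂ ↥(Dg n (fun i => (b i : ℕ)) ⊓ Fx k H) : ℤ)
          - (Module.finrank ℂ ↥(Dg n (fun i => (b i : ℕ)) ⊓ Fx k H
                ⊓ Submodule.restrictScalars ℂ (IL k n)) : ℤ))
         * (Module.finrank ℂ ↥(Dg n (a - fun i => (b i : ℕ)) ⊓ Fx k ⊤) : ℤ))
      else 0)
    = (Module.finrank ℂ ↥(Dg n a ⊓ Fx k H) : ℤ) := by
  classical
  set a' : Fin k →₀ ℕ := Finsupp.equivFunOnFinite.symm a with ha'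
  have haa : (⇑a' : Fin k → ℕ) = a := rfl
  have hdeg : a'.degree ≤ n := by rw [degree_eq_sum, haa]; exact ha
  have key := series_identity hn H a' hdeg
  rw [MvPowerSeries.coeff_mul, coeff_PS, hf_empty, haa] at key
  change _ = (Module.finrank ℂ (W H a) : ℤ)
  rw [← key, ← Finset.sum_filter]
  have hai : ∀ i, a i ≤ n := fun i => le_trans
    (Finset.single_le_sum (f := a) (fun _ _ => Nat.zero_le _) (Finset.mem_univ i)) ha
  refine Finset.sum_bij'
    (fun b _ => (Finsupp.equivFunOnFinite.symm (fun i => (b i : ℕ)),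
      a' - Finsupp.equivFunOnFinite.symm (fun i => (b i : ℕ))))
    (fun p _ => fun i => Fin.ofNat (n + 1) (p.1 i)) ?_ ?_ ?_ ?_ ?_
  · intro b hb
    rw [Finset.HasAntidiagonal.mem_antidiagonal]
    have hb' := (Finset.mem_filter.1 hb).2
    ext i
    simp only [Finsupp.add_apply, Finsupp.tsub_apply, Finsupp.equivFunOnFinite_symm_apply_apply]
    have h1 := hb' i
    have h2 : a' i = a i := rfl
    omega
  · rintro ⟨p, q⟩ hp
    rw [Finset.HasAntidiagonal.mem_antidiagonal] at hp
    refine Finset.mem_filter.2 ⟨Finset.mem_univ _, fun i => ?_⟩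
    have h1 := DFunLike.congr_fun hp i
    simp only [Finsupp.add_apply] at h1
    have h2 : a' i = a i := rfl
    have h3 := hai i
    simp only [Fin.ofNat]
    rw [Nat.mod_eq_of_lt (by omega)]
    omega
  · intro b hb
    funext i
    apply Fin.ext
    simp only [Fin.ofNat, Finsupp.equivFunOnFinite_symm_apply_apply]
    exact Nat.mod_eq_of_lt (b i).2
  · rintro ⟨p, q⟩ hp
    rw [Finset.HasAntidiagonal.mem_antidiagonal] at hp
    have h1 : Finsupp.equivFunOnFinite.symm (fun i => ((Fin.ofNat (n + 1) (p i) : Fin (n + 1)) : ℕ))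
        = p := by
      ext i
      have h1 := DFunLike.congr_fun hp i
      simp only [Finsupp.add_apply] at h1
      have h2 : a' i = a i := rfl
      have h3 := hai i
      simp only [Fin.ofNat, Finsupp.equivFunOnFinite_symm_apply_apply]
      exact Nat.mod_eq_of_lt (by omega)
    simp only [h1]
    rw [← hp]
    simp
  · intro b hb
    have hb' := (Finset.mem_filter.1 hb).2
    have hbn : ∑ i, (b i : ℕ) ≤ n := le_trans (Finset.sum_le_sum fun i _ => hb' i) ha
    simp only [coeff_PS, hf_empty]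
    congr 1
    unfold hf
    rw [← W_inf_IL H (a := ⇑(Finsupp.equivFunOnFinite.symm (fun i => (b i : ℕ)))) hbn]
    rfl

end Pool.Agent.DiagCoinv
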