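import Pool.Agent.DiagCoinv.Basic

set_option autoImplicit false

open MvPolynomial

noncomputable section

namespace Pool.Agent.DiagCoinv

variable {K : Type}

attribute [local instance] MvPolynomial.gradedAlgebra

lemma comp_mul {q : MvPolynomial (K × ℕ) ℂ} {d : ℕ} (hq : q.IsHomogeneous d) (e : ℕ)
    (f : MvPolynomial (K × ℕ) ℂ) :
    homogeneousComponent e (q * f) = if d ≤ e then q * homogeneousComponent (e - d) f else 0 := by
  have h := DirectSum.coe_decompose_mul_of_left_mem (homogeneousSubmodule (K × ℕ) ℂ)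
    (a := q) (b := f) (i := d) e hq
  have e1 : ∀ (g : MvPolynomial (K × ℕ) ℂ) (n : ℕ),
      (DirectSum.decompose (homogeneousSubmodule (K × ℕ) ℂ) g n : MvPolynomial (K × ℕ) ℂ)
        = homogeneousComponent n g := fun g n => decomposition.decompose'_apply g n
  rw [e1, e1] at h
  exact h

lemma mon_isHomogeneous (c : K →₀ ℕ) (j : ℕ) : (mon c j).IsHomogeneous c.degree :=
  IsHomogeneous.rename_isHomogeneous (isHomogeneous_monomial _ rfl)

lemma pw_isHomogeneous (P : Finset ℕ) (w : ℕ → ℂ) (c : K →₀ ℕ) :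
    (pw P w c).IsHomogeneous c.degree :=
  IsHomogeneous.sum _ _ _ fun j _ => (mon_isHomogeneous c j).C_mul (w j)

lemma sub_isHomogeneous {f : MvPolynomial (K × ℕ) ℂ} {e : ℕ} (a b : ℕ) (hf : f.IsHomogeneous e) :
    (sub a b f).IsHomogeneous e :=
  IsHomogeneous.rename_isHomogeneous hf

lemma sub_comp (a b e : ℕ) (f : MvPolynomial (K × ℕ) ℂ) :
    sub a b (homogeneousComponent e f) = homogeneousComponent e (sub a b f) :=
  rename_homogeneousComponent _ _

/-- homogeneous ideals. -/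
def HI (I : Ideal (MvPolynomial (K × ℕ) ℂ)) : Prop :=
  I.IsHomogeneous (homogeneousSubmodule (K × ℕ) ℂ)

lemma HI.comp_mem {I : Ideal (MvPolynomial (K × ℕ) ℂ)} (h : HI I)
    {f : MvPolynomial (K × ℕ) ℂ} (hf : f ∈ I) (e : ℕ) : homogeneousComponent e f ∈ I :=
  homogeneousComponent_mem_of_mem h hf e

lemma HI_D (i j : ℕ) : HI (D K i j) := by
  unfold HI D
  apply Ideal.homogeneous_span
  rintro _ ⟨κ, rfl⟩
  exact ⟨1, (isHomogeneous_X ℂ (κ, i)).sub (isHomogeneous_X ℂ (κ, j))⟩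

lemma HI_J (i : ℕ) (B : Finset ℕ) : HI (J K i B) := by
  induction B using Finset.induction_on with
  | empty => rw [J_empty]; exact Ideal.IsHomogeneous.top _
  | insert l B hl ih => rw [J_insert i hl]; exact Ideal.IsHomogeneous.mul (HI_D i l) ih

lemma HI_pI (P : Finset ℕ) (w : ℕ → ℂ) (I : Finset (K →₀ ℕ)) (t : (K →₀ ℕ) → ℕ) :
    HI (pI P w I t) := by
  unfold HI pI
  apply Ideal.homogeneous_span
  rintro _ ⟨c, _, rfl⟩
  exact ⟨_, (pw_isHomogeneous P w c).pow _⟩

lemma HI_mul {I I' : Ideal (MvPolynomial (K × ℕ) ℂ)} (h : HI I) (h' : HI I') : HI (I * I') :=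
  Ideal.IsHomogeneous.mul h h'

lemma pI_insert (P : Finset ℕ) (w : ℕ → ℂ) (c : K →₀ ℕ) (I : Finset (K →₀ ℕ))
    [DecidableEq K] (t : (K →₀ ℕ) → ℕ) :
    pI P w (insert c I) t = Ideal.span {pw P w c ^ t c} ⊔ pI P w I t := by
  unfold pI
  rw [Finset.coe_insert, Set.image_insert_eq, Ideal.span_insert]

lemma pI_empty (P : Finset ℕ) (w : ℕ → ℂ) (t : (K →₀ ℕ) → ℕ) :
    pI P w ∅ t = ⊥ := by
  simp [pI]

lemma pI_congr (P : Finset ℕ) (w : ℕ → ℂ) (I : Finset (K →₀ ℕ)) {t t' : (K →₀ ℕ) → ℕ}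
    (h : ∀ c ∈ I, t c = t' c) : pI P w I t = pI P w I t' := by
  unfold pI
  congr 1
  apply Set.image_congr
  intro c hc
  rw [h c hc]

/-- Regularity for the ambient ring. -/
def FP (K : Type) (P : Finset ℕ) (w : ℕ → ℂ) : Prop :=
  ∀ (I : Finset (K →₀ ℕ)) (t : (K →₀ ℕ) → ℕ) (c0 : K →₀ ℕ) (f : MvPolynomial (K × ℕ) ℂ) (ν : ℕ),
    (∀ c ∈ I, c ≠ 0) → c0 ∉ I → c0 ≠ 0 → f.IsHomogeneous ν → ν + c0.degree ≤ P.card →
    pw P w c0 * f ∈ pI P w I t → f ∈ pI P w I t

/-- Intersection versus product. -/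
def XP (K : Type) (P : Finset ℕ) (w : ℕ → ℂ) : Prop :=
  ∀ i ∈ P, ∀ B ⊆ P.erase i, ∀ (I : Finset (K →₀ ℕ)) (t : (K →₀ ℕ) → ℕ)
    (h : MvPolynomial (K × ℕ) ℂ) (e : ℕ), (∀ c ∈ I, c ≠ 0) → h.IsHomogeneous e →
    e + 1 ≤ P.card → h ∈ pI P w I t → h ∈ J K i B → h ∈ pI P w I t * J K i B

/-- Regularity on the ideals `J`. -/
def YP (K : Type) (P : Finset ℕ) (w : ℕ → ℂ) : Prop :=
  ∀ i ∈ P, ∀ B ⊆ P.erase i, ∀ (I : Finset (K →₀ ℕ)) (t : (K →₀ ℕ) → ℕ) (c0 : K →₀ ℕ)
    (f : MvPolynomial (K × ℕ) ℂ) (ν : ℕ), (∀ c ∈ I, c ≠ 0) → c0 ∉ I → c0 ≠ 0 →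
    f.IsHomogeneous ν → ν + c0.degree ≤ P.card → f ∈ J K i B →
    pw P w c0 * f ∈ pI P w I t * J K i B → f ∈ pI P w I t * J K i B

lemma degree_pos {c : K →₀ ℕ} (hc : c ≠ 0) : 1 ≤ c.degree := by
  rw [Nat.one_le_iff_ne_zero]
  intro h
  exact hc ((Finsupp.degree_eq_zero_iff c).1 h)

lemma Y_of_F_X {P : Finset ℕ} {w : ℕ → ℂ} (hF : FP K P w) (hX : XP K P w) : YP K P w := by
  intro i hi B hB I t c0 f ν hI hc0 hc0' hf hν hfJ hmem
  have h1 : f ∈ pI P w I t := hF I t c0 f ν hI hc0 hc0' hf hν (Ideal.mul_le_left hmem)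
  have := degree_pos hc0'
  exact hX i hi B hB I t f ν hI hf (by omega) h1 hfJ

lemma Y_pow {P : Finset ℕ} {w : ℕ → ℂ} (hY : YP K P w) {i : ℕ} (hi : i ∈ P) {B : Finset ℕ}
    (hB : B ⊆ P.erase i) (I : Finset (K →₀ ℕ)) (t : (K →₀ ℕ) → ℕ) (c0 : K →₀ ℕ)
    (f : MvPolynomial (K × ℕ) ℂ) (ν : ℕ) (hI : ∀ c ∈ I, c ≠ 0) (hc0 : c0 ∉ I) (hc0' : c0 ≠ 0)
    (hf : f.IsHomogeneous ν) (hfJ : f ∈ J K i B) (s : ℕ) (hν : ν + c0.degree * s ≤ P.card)
    (hmem : pw P w c0 ^ s * f ∈ pI P w I t * J K i B) : f ∈ pI P w I t * J K i B := by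
  induction s with
  | zero => simpa using hmem
  | succ s ih =>
    apply ih
    · refine le_trans ?_ hν
      rw [Nat.mul_succ]; omega
    · refine hY i hi B hB I t c0 _ (c0.degree * s + ν) hI hc0 hc0'
        (((pw_isHomogeneous P w c0).pow s).mul hf) ?_ (Ideal.mul_mem_left _ _ hfJ) ?_
      · rw [Nat.mul_succ] at hν; omega
      · rwa [pow_succ', mul_assoc] at hmem

/-- `sub` maps `pI` to `pI`. -/
lemma sub_mem_pI {P1 P2 : Finset ℕ} {w1 w2 : ℕ → ℂ} {i l : ℕ}
    (h : ∀ c : K →₀ ℕ, sub i l (pw P1 w1 c) = pw P2 w2 c) (I : Finset (K →₀ ℕ))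
    (t : (K →₀ ℕ) → ℕ) {f : MvPolynomial (K × ℕ) ℂ} (hf : f ∈ pI P1 w1 I t) :
    sub i l f ∈ pI P2 w2 I t := by
  have : pI P1 w1 I t ≤ (pI P2 w2 I t).comap (sub i l).toRingHom := by
    rw [pI, Ideal.span_le]
    rintro _ ⟨c, hc, rfl⟩
    refine Ideal.subset_span ⟨c, hc, ?_⟩
    change pw P2 w2 c ^ t c = sub i l (pw P1 w1 c ^ t c)
    rw [map_pow, h]
  exact this hf

lemma sub_mem_pI_mul_J {P1 P2 : Finset ℕ} {w1 w2 : ℕ → ℂ} {i l : ℕ}
    (h : ∀ c : K →₀ ℕ, sub i l (pw P1 w1 c) = pw P2 w2 c) (I : Finset (K →₀ ℕ))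
    (t : (K →₀ ℕ) → ℕ) {B : Finset ℕ} (hB : i ∉ B)
    {f : MvPolynomial (K × ℕ) ℂ} (hf : f ∈ pI P1 w1 I t * J K i B) :
    sub i l f ∈ pI P2 w2 I t * J K l B := by
  refine Submodule.mul_induction_on hf ?_ ?_
  · intro u hu g hg
    rw [map_mul]
    refine Ideal.mul_mem_mul (sub_mem_pI h I t hu) ?_
    have := sub_mem_J i l i B hB hg
    rwa [show tau i l i = l by simp [tau]] at this
  · intro x y hx hy
    rw [map_add]; exact Ideal.add_mem _ hx hy

lemma lift_pI {P1 P2 : Finset ℕ} {w1 w2 : ℕ → ℂ} {i l : ℕ}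
    (h : ∀ c : K →₀ ℕ, sub i l (pw P1 w1 c) = sub i l (pw P2 w2 c)) (I : Finset (K →₀ ℕ))
    (t : (K →₀ ℕ) → ℕ) {f : MvPolynomial (K × ℕ) ℂ} (hf : f ∈ pI P2 w2 I t) :
    ∃ g ∈ pI P1 w1 I t, sub i l g = sub i l f := by
  have hf' := hf
  unfold pI at hf'
  refine Submodule.span_induction
    (p := fun f _ => ∃ g ∈ pI P1 w1 I t, sub i l g = sub i l f) ?_ ?_ ?_ ?_ hf'
  · rintro _ ⟨c, hc, rfl⟩
    exact ⟨pw P1 w1 c ^ t c, Ideal.subset_span ⟨c, hc, rfl⟩, by simp only [map_pow, h]⟩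
  · exact ⟨0, Submodule.zero_mem _, rfl⟩
  · rintro x y _ _ ⟨gx, hgx, ex⟩ ⟨gy, hgy, ey⟩
    exact ⟨gx + gy, Ideal.add_mem _ hgx hgy, by rw [map_add, map_add, ex, ey]⟩
  · rintro a x _ ⟨gx, hgx, ex⟩
    exact ⟨a * gx, Ideal.mul_mem_left _ _ hgx, by rw [smul_eq_mul, map_mul, map_mul, ex]⟩

lemma lift_pI_mul_J {P1 P2 : Finset ℕ} {w1 w2 : ℕ → ℂ} {i l : ℕ} (hil : i ≠ l)
    (h : ∀ c : K →₀ ℕ, sub i l (pw P1 w1 c) = sub i l (pw P2 w2 c)) (I : Finset (K →₀ ℕ))
    (t : (K →₀ ℕ) → ℕ) {B : Finset ℕ} (hl : l ∉ B) {f : MvPolynomial (K × ℕ) ℂ}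
    (hf : f ∈ pI P2 w2 I t * J K l B) :
    ∃ g ∈ pI P1 w1 I t * J K i B, sub i l g = sub i l f := by
  refine Submodule.mul_induction_on hf ?_ ?_
  · intro u hu v hv
    obtain ⟨g, hg, eg⟩ := lift_pI h I t hu
    have hv' := sub_mem_J l i l B hl hv
    rw [show tau l i l = i by simp [tau]] at hv'
    refine ⟨g * sub l i v, Ideal.mul_mem_mul hg hv', ?_⟩
    rw [map_mul, map_mul, eg, sub_sub_swap]
  · rintro x y ⟨gx, hgx, ex⟩ ⟨gy, hgy, ey⟩
    exact ⟨gx + gy, Ideal.add_mem _ hgx hgy, by rw [map_add, map_add, ex, ey]⟩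

lemma X_inner [DecidableEq K] {P : Finset ℕ} {w : ℕ → ℂ} {i l : ℕ} {B : Finset ℕ}
    (hi : i ∈ P) (hl : l ∈ P)
    (hil : i ≠ l) (hB : B ⊆ P.erase i) (hlB : l ∉ B)
    (hY : YP K (P.erase i) (merge w i l)) (I : Finset (K →₀ ℕ)) (t : (K →₀ ℕ) → ℕ) :
    ∀ (h : MvPolynomial (K × ℕ) ℂ) (e : ℕ), (∀ c ∈ I, c ≠ 0) → h.IsHomogeneous e →
    e + 1 ≤ P.card → h ∈ pI P w I t * J K i B → sub i l h = 0 →
    h ∈ pI P w I t * J K i (insert l B) := by
  have hiB : i ∉ B := fun h => (Finset.mem_erase.1 (hB h)).1 rfl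
  have hiB' : i ∉ P.erase i := Finset.notMem_erase i P
  have hlP' : l ∈ P.erase i := Finset.mem_erase.2 ⟨hil.symm, hl⟩
  have hBP' : B ⊆ (P.erase i).erase l := by
    intro x hx
    exact Finset.mem_erase.2 ⟨fun h => hlB (h ▸ hx), hB hx⟩
  have hpush : ∀ c : K →₀ ℕ, sub i l (pw P w c) = pw (P.erase i) (merge w i l) c :=
    fun c => sub_pw_merge hi hl hil w c
  have hpush' : ∀ c : K →₀ ℕ, sub i l (pw P w c)
      = sub i l (pw (P.erase i) (merge w i l) c) := fun c => by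
    rw [sub_pw_of_notMem l hiB', hpush]
  induction I using Finset.induction_on with
  | empty =>
    intro h e _ _ _ hmem _
    rw [pI_empty, Ideal.bot_mul] at hmem ⊢
    exact hmem
  | insert c0 I hc0 ih =>
    intro h e hI hh he hmem hsub
    have hIc0 : c0 ≠ 0 := hI c0 (Finset.mem_insert_self _ _)
    have hI' : ∀ c ∈ I, c ≠ 0 := fun c hc => hI c (Finset.mem_insert_of_mem hc)
    have hmono : pI P w I t * J K i (insert l B)
        ≤ pI P w (insert c0 I) t * J K i (insert l B) := by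
      apply Ideal.mul_mono_left
      rw [pI_insert]; exact le_sup_right
    rw [pI_insert, Ideal.sup_mul] at hmem
    obtain ⟨a, ha, b, hb, hab⟩ := Submodule.mem_sup.1 hmem
    obtain ⟨n0, hn0, rfl⟩ := Ideal.mem_span_singleton_mul.1 ha
    have hpi : (pw P w c0 ^ t c0).IsHomogeneous (c0.degree * t c0) :=
      (pw_isHomogeneous P w c0).pow _
    have hcomp : h = homogeneousComponent e (pw P w c0 ^ t c0 * n0)
        + homogeneousComponent e b := by
      conv_lhs => rw [← homogeneousComponent_eq_self hh, ← hab, map_add]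
    have hb' : homogeneousComponent e b ∈ pI P w I t * J K i B :=
      (HI_mul (HI_pI P w I t) (HI_J i B)).comp_mem hb e
    rw [comp_mul hpi] at hcomp
    by_cases hδ : c0.degree * t c0 ≤ e
    · rw [if_pos hδ] at hcomp
      set n1 := homogeneousComponent (e - c0.degree * t c0) n0 with hn1
      have hn1J : n1 ∈ J K i B := (HI_J i B).comp_mem hn0 _
      have hn1h : n1.IsHomogeneous (e - c0.degree * t c0) :=
        homogeneousComponent_isHomogeneous _ _
      have hs : pw (P.erase i) (merge w i l) c0 ^ t c0 * sub i l n1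
          = - sub i l (homogeneousComponent e b) := by
        have := hsub
        rw [hcomp, map_add, map_mul, map_pow, hpush] at this
        exact eq_neg_of_add_eq_zero_left this
      have hs2 : pw (P.erase i) (merge w i l) c0 ^ t c0 * sub i l n1
          ∈ pI (P.erase i) (merge w i l) I t * J K l B := by
        rw [hs]
        exact neg_mem (sub_mem_pI_mul_J hpush I t hiB hb')
      have hsJ : sub i l n1 ∈ J K l B := by
        have := sub_mem_J i l i B hiB hn1J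
        rwa [show tau i l i = l by simp [tau]] at this
      have hcard : (P.erase i).card = P.card - 1 := Finset.card_erase_of_mem hi
      have hs3 := Y_pow hY hlP' hBP' I t c0 (sub i l n1) (e - c0.degree * t c0) hI' hc0 hIc0
        (sub_isHomogeneous i l hn1h) hsJ (t c0) (by omega) hs2
      obtain ⟨u, hu, eu⟩ := lift_pI_mul_J hil hpush' I t hlB hs3
      rw [sub_sub_self] at eu
      have hn2J : n1 - u ∈ J K i B :=
        Ideal.sub_mem _ hn1J ((Ideal.mul_le_right : pI P w I t * J K i B ≤ J K i B) hu)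
      have hn2 : n1 - u ∈ J K i (insert l B) :=
        mem_J_insert_of_sub_eq_zero i l B hil hlB hn2J (by rw [map_sub, eu, sub_self])
      have hb2 : pw P w c0 ^ t c0 * u + homogeneousComponent e b ∈ pI P w I t * J K i B :=
        Ideal.add_mem _ (Ideal.mul_mem_left _ _ hu) hb'
      have hh2 : h = pw P w c0 ^ t c0 * (n1 - u)
          + (pw P w c0 ^ t c0 * u + homogeneousComponent e b) := by
        rw [hcomp]; ring
      have hsb2 : sub i l (pw P w c0 ^ t c0 * u + homogeneousComponent e b) = 0 := by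
        have := hsub
        rw [hh2, map_add, map_mul, map_sub, eu, sub_self, mul_zero, zero_add] at this
        exact this
      have h3 := ih (homogeneousComponent e
          (pw P w c0 ^ t c0 * u + homogeneousComponent e b)) e hI'
        (homogeneousComponent_isHomogeneous _ _) he
        ((HI_mul (HI_pI P w I t) (HI_J i B)).comp_mem hb2 e)
        (by rw [sub_comp, hsb2, map_zero])
      have h4 : pw P w c0 ^ t c0 * (n1 - u)
          ∈ pI P w (insert c0 I) t * J K i (insert l B) := by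
        refine Ideal.mul_mem_mul ?_ hn2
        exact Ideal.subset_span ⟨c0, by simp, rfl⟩
      have h5 := (HI_mul (HI_pI P w (insert c0 I) t) (HI_J i (insert l B))).comp_mem h4 e
      have h6 : h = homogeneousComponent e (pw P w c0 ^ t c0 * (n1 - u))
          + homogeneousComponent e (pw P w c0 ^ t c0 * u + homogeneousComponent e b) := by
        conv_lhs => rw [← homogeneousComponent_eq_self hh, hh2, map_add]
      rw [h6]
      exact Ideal.add_mem _ h5 (hmono h3)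
    · rw [if_neg hδ, zero_add] at hcomp
      exact hmono (ih h e hI' hh he (hcomp ▸ hb') hsub)

lemma X_of_Y [DecidableEq K] {P : Finset ℕ} {w : ℕ → ℂ}
    (hY : ∀ i ∈ P, ∀ l ∈ P, i ≠ l → YP K (P.erase i) (merge w i l)) : XP K P w := by
  intro i hi B
  induction B using Finset.induction_on with
  | empty =>
    intro _ I t h e _ _ _ hmem _
    rw [J_empty, Ideal.mul_top]; exact hmem
  | insert l B hl ih =>
    intro hB I t h e hI hh he hmem hJ
    have hB' : B ⊆ P.erase i := fun x hx => hB (Finset.mem_insert_of_mem hx)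
    have hlP : l ∈ P.erase i := hB (Finset.mem_insert_self _ _)
    have hlP1 := (Finset.mem_erase.1 hlP)
    have h1 := ih hB' I t h e hI hh he hmem (J_insert_le i l B hJ)
    exact X_inner hi hlP1.2 hlP1.1.symm hB' hl (hY i hi l hlP1.2 hlP1.1.symm) I t h e hI hh he h1
      (sub_eq_zero_of_mem_J_insert i l B hl hJ)

lemma E_lemma {P : Finset ℕ} {w : ℕ → ℂ} (hX : XP K P w) {y : ℕ} (hy : y ∉ P)
    (B : Finset ℕ) (hB : B ⊆ P) (I : Finset (K →₀ ℕ)) (t : (K →₀ ℕ) → ℕ)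
    (hI : ∀ c ∈ I, c ≠ 0) (G : MvPolynomial (K × ℕ) ℂ) (e : ℕ) (hG : G.IsHomogeneous e)
    (he : e + 1 ≤ P.card) (hsub : ∀ j ∈ B, sub y j G ∈ pI P w I t) :
    G ∈ pI P w I t ⊔ J K y B := by
  induction B using Finset.induction_on with
  | empty => rw [J_empty]; simp
  | insert i B hiB ih =>
    have hiP : i ∈ P := hB (Finset.mem_insert_self _ _)
    have hBP : B ⊆ P := fun x hx => hB (Finset.mem_insert_of_mem hx)
    have hyB : y ∉ B := fun h => hy (hBP h)
    have hyi : y ≠ i := fun h => hy (h ▸ hiP)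
    have hG1 := ih hBP (fun j hj => hsub j (Finset.mem_insert_of_mem hj))
    obtain ⟨F, hF, H, hH, hFH⟩ := Submodule.mem_sup.1 hG1
    have hF' := (HI_pI P w I t).comp_mem hF e
    have hH' := (HI_J y B).comp_mem hH e
    have hG2 : G = homogeneousComponent e F + homogeneousComponent e H := by
      conv_lhs => rw [← homogeneousComponent_eq_self hG, ← hFH, map_add]
    have hfix : ∀ c : K →₀ ℕ, sub y i (pw P w c) = pw P w c := fun c =>
      sub_pw_of_notMem i hy w c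
    have hsH : sub y i (homogeneousComponent e H) ∈ pI P w I t := by
      have h1 := hsub i (Finset.mem_insert_self _ _)
      have h2 := sub_mem_pI hfix I t hF'
      have h3 : sub y i (homogeneousComponent e H)
          = sub y i G - sub y i (homogeneousComponent e F) := by
        rw [← map_sub, hG2]; congr 1; simp
      rw [h3]; exact Ideal.sub_mem _ h1 h2
    have hsJ : sub y i (homogeneousComponent e H) ∈ J K i B := by
      have := sub_mem_J y i y B hyB hH'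
      rwa [show tau y i y = i by simp [tau]] at this
    have hBe : B ⊆ P.erase i := fun x hx =>
      Finset.mem_erase.2 ⟨fun h => hiB (h ▸ hx), hBP hx⟩
    have hx := hX i hiP B hBe I t _ e hI
      (sub_isHomogeneous y i (homogeneousComponent_isHomogeneous e H)) he hsH hsJ
    obtain ⟨u, hu, eu⟩ := lift_pI_mul_J (P1 := P) (w1 := w) hyi (fun c => rfl) I t hiB hx
    rw [sub_sub_self] at eu
    have hn2J : homogeneousComponent e H - u ∈ J K y B :=
      Ideal.sub_mem _ hH' ((Ideal.mul_le_right : pI P w I t * J K y B ≤ J K y B) hu)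
    have hn2 : homogeneousComponent e H - u ∈ J K y (insert i B) :=
      mem_J_insert_of_sub_eq_zero y i B hyi hiB hn2J (by rw [map_sub, eu, sub_self])
    have hG3 : G = (homogeneousComponent e F + u) + (homogeneousComponent e H - u) := by
      rw [hG2]; ring
    rw [hG3]
    exact Submodule.add_mem_sup
      (Ideal.add_mem _ hF' ((Ideal.mul_le_left : pI P w I t * J K y B ≤ pI P w I t) hu)) hn2

lemma D_le_vars (i j : ℕ) : D K i j ≤ idealOfVars (K × ℕ) ℂ := by
  unfold D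
  rw [Ideal.span_le]
  rintro _ ⟨κ, rfl⟩
  exact Ideal.sub_mem _ (Ideal.subset_span ⟨_, rfl⟩) (Ideal.subset_span ⟨_, rfl⟩)

lemma J_le_pow (i : ℕ) (B : Finset ℕ) : J K i B ≤ idealOfVars (K × ℕ) ℂ ^ B.card := by
  induction B using Finset.induction_on with
  | empty => simp
  | insert l B hl ih =>
    rw [J_insert i hl, Finset.card_insert_of_notMem hl, pow_succ']
    exact Ideal.mul_mono (D_le_vars i l) ih

lemma eq_zero_of_mem_J {i : ℕ} {B : Finset ℕ} {f : MvPolynomial (K × ℕ) ℂ} {e : ℕ}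
    (hf : f.IsHomogeneous e) (he : e < B.card) (hJ : f ∈ J K i B) : f = 0 := by
  ext m
  rw [coeff_zero]
  by_cases hm : m.degree = e
  · exact (mem_pow_idealOfVars_iff' _ _).1 (J_le_pow i B hJ) m (by omega)
  · exact hf.coeff_eq_zero hm

end Pool.Agent.DiagCoinv
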