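import Pool.Agent.DiagCoinv.Trace

set_option autoImplicit false

open MvPolynomial

noncomputable section

namespace Pool.Agent.DiagCoinv

variable {k n : ℕ}

/-- the exponents of multidegree `a`. -/
def Ex (k n : ℕ) (a : Fin k → ℕ) : Set (Fin k × Fin n →₀ ℕ) :=
  {d | ∀ i, ∑ j, d (i, j) = a i}

theorem weight_eq (d : Fin k × Fin n →₀ ℕ) :
    Finsupp.weight (wt k n) d = fun i => ∑ j, d (i, j) := by
  funext i
  rw [Finsupp.weight_apply, Finsupp.sum_fintype _ _ (by simp), Finset.sum_apply,
    Fintype.sum_prod_type]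
  simp only [wt, Pi.smul_apply, smul_eq_mul]
  rw [Finset.sum_eq_single i]
  · simp
  · intro b _ hb
    simp [Pi.single_apply, hb.symm]
  · simp

theorem mem_Ex_iff {a : Fin k → ℕ} {d : Fin k × Fin n →₀ ℕ} :
    d ∈ Ex k n a ↔ Finsupp.weight (wt k n) d = a := by
  rw [weight_eq, funext_iff]
  rfl

theorem finite_Ex (a : Fin k → ℕ) : (Ex k n a).Finite := by
  have h1 := Finsupp.finite_of_nat_weight_eq (fun _ : Fin k × Fin n => 1) (by simp) (∑ i, a i)
  refine h1.subset ?_
  intro d hd
  have hd' : ∀ i, ∑ j, d (i, j) = a i := hd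
  show Finsupp.weight (fun _ => 1) d = _
  rw [Finsupp.weight_apply, Finsupp.sum_fintype _ _ (by simp), Fintype.sum_prod_type]
  simp [hd']

instance (a : Fin k → ℕ) : Fintype (Ex k n a) := (finite_Ex a).fintype

/-- the monomial basis of `Dg n a`. -/
def eqv (a : Fin k → ℕ) : Dg n a ≃ₗ[ℂ] (Ex k n a → ℂ) where
  toFun f d := coeff d.1 f.1
  map_add' f g := by
    funext d
    simp
  map_smul' r f := by
    funext d
    simp
  invFun g := ⟨∑ d, monomial d.1 (g d), Submodule.sum_mem _ fun d _ =>
    isWeightedHomogeneous_monomial _ _ _ (mem_Ex_iff.1 d.2)⟩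
  left_inv f := by
    apply Subtype.ext
    ext d
    simp only [coeff_sum, coeff_monomial]
    by_cases hd : d ∈ Ex k n a
    · rw [Finset.sum_eq_single ⟨d, hd⟩]
      · simp
      · intro b _ hb
        rw [if_neg]
        intro h
        exact hb (Subtype.ext h)
      · simp
    · rw [Finset.sum_eq_zero]
      · by_contra hne
        exact hd (mem_Ex_iff.2 (f.2 (Ne.symm hne)))
      · intro b _
        rw [if_neg]
        intro h
        exact hd (h ▸ b.2)
  right_inv g := by
    funext d
    simp only [coeff_sum, coeff_monomial]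
    rw [Finset.sum_eq_single d]
    · simp
    · intro b _ hb
      rw [if_neg]
      intro h
      exact hb (Subtype.ext h)
    · simp

theorem ts_Dg (σ : Equiv.Perm (Fin n)) (a : Fin k → ℕ) :
    ts σ (Dg n a) (stable_Dg σ a) =
      (Finset.univ.filter fun d : Ex k n a => ∀ i j, d.1 (i, σ j) = d.1 (i, j)).card := by
  classical
  unfold ts
  have b : Module.Basis (Ex k n a) ℂ (Dg n a) := Module.Basis.ofEquivFun (eqv a)
  rw [LinearMap.trace_eq_matrix_trace ℂ (Module.Basis.ofEquivFun (eqv (n := n) a)), Matrix.trace,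
    Finset.card_eq_sum_ones, Nat.cast_sum, Finset.sum_filter]
  refine Finset.sum_congr rfl fun d _ => ?_
  rw [Matrix.diag_apply, LinearMap.toMatrix_apply, Module.Basis.ofEquivFun_repr_apply,
    Module.Basis.coe_ofEquivFun]
  have h1 : ((eqv (n := n) a).symm (Pi.single d 1)).1 = monomial d.1 1 := by
    show ∑ e : Ex k n a, monomial e.1 ((Pi.single d 1 : Ex k n a → ℂ) e) = _
    rw [Finset.sum_eq_single d]
    · simp
    · intro e _ he
      simp [he]
    · simp
  show coeff d.1 (ren k σ ((eqv (n := n) a).symm (Pi.single d 1)).1) = _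
  rw [h1]
  unfold ren
  rw [rename_monomial, coeff_monomial]
  have hinj : Function.Injective (fun x : Fin k × Fin n => (x.1, σ x.2)) := by
    rintro ⟨i, j⟩ ⟨i', j'⟩ h
    simp only [Prod.mk.injEq, EmbeddingLike.apply_eq_iff_eq] at h
    rw [h.1, h.2]
  have h2 : (Finsupp.mapDomain (fun x : Fin k × Fin n => (x.1, σ x.2)) d.1 = d.1) ↔
      ∀ i j, d.1 (i, σ j) = d.1 (i, j) := by
    constructor
    · intro h i j
      conv_lhs => rw [← h]
      exact Finsupp.mapDomain_apply hinj d.1 (i, j)
    · intro h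
      ext ⟨i, j⟩
      have h3 := Finsupp.mapDomain_apply hinj d.1 (i, σ.symm j)
      simp only [Equiv.apply_symm_apply] at h3
      rw [h3, ← h i (σ.symm j), Equiv.apply_symm_apply]
  simp only [h2, Nat.cast_one]

/-- the set of cycles of a permutation (including the fixed points). -/
abbrev Cyc (σ : Equiv.Perm (Fin n)) : Type := Quotient (Equiv.Perm.SameCycle.setoid σ)

open Classical in
/-- length of a cycle. -/
def clen (σ : Equiv.Perm (Fin n)) (c : Cyc σ) : ℕ :=
  (Finset.univ.filter fun j : Fin n => (Quotient.mk _ j : Cyc σ) = c).card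

/-- `1 / (1 - q_i^m)`. -/
def geo (i : Fin k) (m : ℕ) : MvPowerSeries (Fin k) ℂ :=
  open Classical in fun b => if ∃ t, b = Finsupp.single i (m * t) then 1 else 0

theorem geo_mul (i : Fin k) {m : ℕ} (hm : 1 ≤ m) :
    geo i m * (1 - (MvPowerSeries.X i) ^ m) = 1 := by
  classical
  ext b
  rw [mul_sub, mul_one, map_sub, MvPowerSeries.X_pow_eq, MvPowerSeries.coeff_mul_monomial,
    MvPowerSeries.coeff_one]
  have hc : ∀ b, MvPowerSeries.coeff b (geo i m) =
      if ∃ t, b = Finsupp.single i (m * t) then (1 : ℂ) else 0 := fun b => by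
    simp only [MvPowerSeries.coeff, geo]
    rfl
  rw [hc, hc]
  by_cases hb : b = 0
  · subst hb
    rw [if_pos ⟨0, by simp⟩, if_neg, if_pos rfl, sub_zero]
    intro h
    have := h i
    simp at this
    omega
  · rw [if_neg hb]
    by_cases hle : Finsupp.single i m ≤ b
    · rw [if_pos hle, mul_one]
      have : (∃ t, b = Finsupp.single i (m * t)) ↔
          (∃ t, b - Finsupp.single i m = Finsupp.single i (m * t)) := by
        constructor
        · rintro ⟨t, rfl⟩
          have ht : t ≠ 0 := by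
            rintro rfl
            apply hb
            simp
          obtain ⟨t', rfl⟩ := Nat.exists_eq_succ_of_ne_zero ht
          refine ⟨t', ?_⟩
          rw [← Finsupp.single_tsub]
          congr 1
          rw [Nat.mul_succ]
          omega
        · rintro ⟨t, ht⟩
          refine ⟨t + 1, ?_⟩
          rw [mul_add, mul_one, Finsupp.single_add, ← ht]
          exact (tsub_add_cancel_of_le hle).symm
      simp only [this, sub_self]
    · rw [if_neg hle, sub_zero, if_neg]
      rintro ⟨t, rfl⟩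
      have ht : t ≠ 0 := by
        rintro rfl
        apply hb
        simp
      apply hle
      rw [Finsupp.single_le_iff, Finsupp.single_eq_same]
      exact Nat.le_mul_of_pos_right m (Nat.pos_of_ne_zero ht)

theorem inv_eq_geo (i : Fin k) {m : ℕ} (hm : 1 ≤ m) :
    (1 - (MvPowerSeries.X i : MvPowerSeries (Fin k) ℂ) ^ m)⁻¹ = geo i m := by
  symm
  rw [MvPowerSeries.eq_inv_iff_mul_eq_one]
  · exact geo_mul i hm
  · rw [map_sub, map_one, map_pow, MvPowerSeries.constantCoeff_X, zero_pow (by omega), sub_zero]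
    exact one_ne_zero

theorem clen_pos (σ : Equiv.Perm (Fin n)) (c : Cyc σ) : 1 ≤ clen σ c := by
  classical
  unfold clen
  rw [Nat.one_le_iff_ne_zero, Finset.card_ne_zero]
  obtain ⟨j, hj⟩ := Quotient.exists_rep c
  exact ⟨j, by simp [hj]⟩

/-- `∏_c P_k(q^{|c|})` over the cycles `c` of `σ`. -/
def cp (k : ℕ) (σ : Equiv.Perm (Fin n)) : MvPowerSeries (Fin k) ℂ :=
  open Classical in ∏ c : Cyc σ, ∏ i : Fin k, (1 - (MvPowerSeries.X i) ^ clen σ c)⁻¹

theorem sum_fiber (σ : Equiv.Perm (Fin n)) (f : Cyc σ → ℕ) :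
    ∑ j : Fin n, f (Quotient.mk _ j) =
      open Classical in ∑ c : Cyc σ, clen σ c * f c := by
  classical
  rw [← Finset.sum_fiberwise Finset.univ (fun j : Fin n => (Quotient.mk _ j : Cyc σ))]
  refine Finset.sum_congr rfl fun c _ => ?_
  rw [Finset.sum_congr rfl (fun j hj => by rw [(Finset.mem_filter.1 hj).2])]
  rw [Finset.sum_const, smul_eq_mul]
  rfl

theorem coeff_cp (σ : Equiv.Perm (Fin n)) (a : Fin k →₀ ℕ) :
    MvPowerSeries.coeff a (cp k σ) =
      (Finset.univ.filter fun d : Ex k n ⇑a => ∀ i j, d.1 (i, σ j) = d.1 (i, j)).card := by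
  classical
  have e1 : cp k σ = ∏ x : Cyc σ × Fin k, geo x.2 (clen σ x.1) := by
    unfold cp
    rw [Fintype.prod_prod_type]
    refine Finset.prod_congr rfl fun c _ => Finset.prod_congr rfl fun i _ => ?_
    exact inv_eq_geo i (clen_pos σ c)
  have hc : ∀ (b : Fin k →₀ ℕ) (i : Fin k) (m : ℕ), MvPowerSeries.coeff b (geo i m) =
      if ∃ t, b = Finsupp.single i (m * t) then (1 : ℂ) else 0 := fun b i m => by
    simp only [MvPowerSeries.coeff, geo]
    rfl
  rw [e1, MvPowerSeries.coeff_prod]
  simp only [hc]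
  simp only [Finset.prod_boole, Finset.mem_univ, true_implies]
  rw [Finset.sum_boole]
  congr 1
  symm
  -- the bijection
  refine Finset.card_bij'
    (fun d _ => Finsupp.equivFunOnFinite.symm
      (fun x : Cyc σ × Fin k => Finsupp.single x.2 (clen σ x.1 * d.1 (x.2, Quotient.out x.1))))
    (fun l hl => ⟨Finsupp.equivFunOnFinite.symm
      (fun x : Fin k × Fin n => l (Quotient.mk _ x.2, x.1) x.1 / clen σ (Quotient.mk _ x.2)), ?_⟩)
    ?_ ?_ ?_ ?_
  · -- membership of the inverse
    obtain ⟨h1, h2⟩ := Finset.mem_filter.1 hl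
    rw [Finset.mem_finsuppAntidiag] at h1
    intro i
    have h3 : ∀ c : Cyc σ, clen σ c * (l (c, i) i / clen σ c) = l (c, i) i := by
      intro c
      obtain ⟨t, ht⟩ := h2 (c, i)
      rw [ht]
      simp only [Finsupp.single_eq_same]
      rw [Nat.mul_div_cancel_left _ (clen_pos σ c)]
    have h4 := sum_fiber σ (fun c => l (c, i) i / clen σ c)
    simp only [Finsupp.equivFunOnFinite_symm_apply_apply]
    rw [h4]
    simp only [h3]
    have h5 : (∑ x : Cyc σ × Fin k, l x) i = a i := by
      have := h1.1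
      rw [← this]
    rw [Finsupp.finsetSum_apply, Fintype.sum_prod_type] at h5
    rw [← h5]
    refine Finset.sum_congr rfl fun c _ => ?_
    rw [Finset.sum_eq_single i]
    · intro i' _ hi'
      obtain ⟨t, ht⟩ := h2 (c, i')
      rw [ht]
      simp [hi'.symm]
    · simp
  · intro d hd
    obtain ⟨-, h2⟩ := Finset.mem_filter.1 hd
    have hcyc : ∀ (i : Fin k) (j j' : Fin n), σ.SameCycle j j' → d.1 (i, j) = d.1 (i, j') := by
      intro i j j' hjj
      have hz : ∀ (z : ℕ) (j : Fin n), d.1 (i, (σ ^ z) j) = d.1 (i, j) := by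
        intro z
        induction z with
        | zero => intro j; simp
        | succ z ih =>
          intro j
          rw [pow_succ', Equiv.Perm.mul_apply, h2, ih]
      obtain ⟨z, hz', rfl⟩ := Equiv.Perm.SameCycle.exists_pow_eq' hjj
      rw [hz]
    rw [Finset.mem_filter, Finset.mem_finsuppAntidiag]
    refine ⟨⟨?_, Finset.subset_univ _⟩, ?_⟩
    · ext i
      rw [Finsupp.finsetSum_apply, Fintype.sum_prod_type]
      simp only [Finsupp.equivFunOnFinite_symm_apply_apply]
      have h4 := sum_fiber σ (fun c => d.1 (i, Quotient.out c))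
      have h5 : ∀ j : Fin n, d.1 (i, Quotient.out (Quotient.mk _ j : Cyc σ)) = d.1 (i, j) := by
        intro j
        apply hcyc
        exact Quotient.mk_out (s := Equiv.Perm.SameCycle.setoid σ) j
      simp only [h5] at h4
      rw [← (d.2 : ∀ i, ∑ j, d.1 (i, j) = a i) i, h4]
      refine Finset.sum_congr rfl fun c _ => ?_
      rw [Finset.sum_eq_single i]
      · simp
      · intro i' _ hi'
        simp [hi'.symm]
      · simp
    · rintro ⟨c, i⟩
      exact ⟨d.1 (i, Quotient.out c), rfl⟩
  · intro l hl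
    rw [Finset.mem_filter]
    refine ⟨Finset.mem_univ _, ?_⟩
    intro i j
    have : (Quotient.mk _ (σ j) : Cyc σ) = Quotient.mk _ j := by
      apply Quotient.sound
      exact Equiv.Perm.sameCycle_apply_left.2 (Equiv.Perm.SameCycle.refl σ j)
    simp only [Finsupp.equivFunOnFinite_symm_apply_apply]
    rw [this]
  · intro d hd
    obtain ⟨-, h2⟩ := Finset.mem_filter.1 hd
    have hcyc : ∀ (i : Fin k) (j j' : Fin n), σ.SameCycle j j' → d.1 (i, j) = d.1 (i, j') := by
      intro i j j' hjj
      have hz : ∀ (z : ℕ) (j : Fin n), d.1 (i, (σ ^ z) j) = d.1 (i, j) := by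
        intro z
        induction z with
        | zero => intro j; simp
        | succ z ih =>
          intro j
          rw [pow_succ', Equiv.Perm.mul_apply, h2, ih]
      obtain ⟨z, hz', rfl⟩ := Equiv.Perm.SameCycle.exists_pow_eq' hjj
      rw [hz]
    apply Subtype.ext
    ext ⟨i, j⟩
    simp only [Finsupp.equivFunOnFinite_symm_apply_apply, Finsupp.single_eq_same]
    rw [Nat.mul_div_cancel_left _ (clen_pos σ _)]
    apply hcyc
    exact Quotient.mk_out (s := Equiv.Perm.SameCycle.setoid σ) j
  · intro l hl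
    obtain ⟨h1, h2⟩ := Finset.mem_filter.1 hl
    ext ⟨c, i⟩ i'
    simp only [Finsupp.equivFunOnFinite_symm_apply_apply]
    obtain ⟨t, ht⟩ := h2 (c, i)
    have h3 : (Quotient.mk _ (Quotient.out c) : Cyc σ) = c := Quotient.out_eq c
    rw [h3, ht]
    simp only [Finsupp.single_eq_same]
    rw [Nat.mul_div_cancel_left _ (clen_pos σ c)]

theorem CS_empty (σ : Equiv.Perm (Fin n)) : CS σ ∅ = cp k σ := by
  ext a
  rw [coeff_CS, hs_empty, ts_Dg, coeff_cp]

end Pool.Agent.DiagCoinv
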