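import Pool.Agent.DiagCoinv.Main

set_option autoImplicit false

open MvPolynomial

noncomputable section

namespace Pool.Agent.DiagCoinv

variable {K : Type}

lemma pderiv_mon [DecidableEq K] (κ : K) (c : K →₀ ℕ) (j j' : ℕ) :
    pderiv (κ, j) (mon c j') =
      if j = j' then C (c κ : ℂ) * mon (c - Finsupp.single κ 1) j else 0 := by
  by_cases h : j = j'
  · subst h
    rw [if_pos rfl]
    unfold mon
    have hinj : Function.Injective (fun κ : K => (κ, j)) := fun a b hab => (Prod.mk.inj hab).1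
    have := pderiv_rename hinj κ (monomial c (1 : ℂ))
    rw [this, pderiv_monomial, one_mul]
    have e : (monomial (c - Finsupp.single κ 1) (c κ : ℂ) : MvPolynomial K ℂ)
        = C (c κ : ℂ) * monomial (c - Finsupp.single κ 1) 1 := by
      rw [C_mul_monomial, mul_one]
    rw [e, map_mul, rename_C]
  · rw [if_neg h]
    apply pderiv_eq_zero_of_notMem_vars
    intro hmem
    have := vars_rename (fun κ : K => (κ, j')) (monomial c (1 : ℂ)) hmem
    rw [Finset.mem_image] at this
    obtain ⟨a, _, ha⟩ := this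
    exact h (Prod.mk.inj ha).2.symm

lemma pderiv_pw [DecidableEq K] (κ : K) (c : K →₀ ℕ) (P : Finset ℕ) (w : ℕ → ℂ) {j : ℕ}
    (hj : j ∈ P) :
    pderiv (κ, j) (pw P w c) = C (w j) * (C (c κ : ℂ) * mon (c - Finsupp.single κ 1) j) := by
  unfold pw
  rw [map_sum]
  have : ∀ j' ∈ P, pderiv (κ, j) (C (w j') * mon c j')
      = if j = j' then C (w j) * (C (c κ : ℂ) * mon (c - Finsupp.single κ 1) j) else 0 := by
    intro j' _
    rw [Derivation.leibniz, pderiv_C, smul_zero, add_zero, smul_eq_mul, pderiv_mon]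
    split_ifs with h
    · rw [h]
    · simp
  rw [Finset.sum_congr rfl this, Finset.sum_ite_eq, if_pos hj]

lemma sub_C (a b : ℕ) (r : ℂ) : sub a b (C r : MvPolynomial (K × ℕ) ℂ) = C r := by
  simp [sub]

/-- Detect the point `y`. -/
def Psi (y : ℕ) : MvPolynomial (K × ℕ) ℂ →ₐ[ℂ] MvPolynomial K (MvPolynomial (K × ℕ) ℂ) :=
  aeval (fun x : K × ℕ => if x.2 = y then X x.1 else C (X x))

/-- `y`-free polynomials. -/
def YF (y : ℕ) (f : MvPolynomial (K × ℕ) ℂ) : Prop := ∀ x ∈ f.vars, x.2 ≠ y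

lemma sub_of_YF {y : ℕ} (j : ℕ) {f : MvPolynomial (K × ℕ) ℂ} (hf : YF y f) : sub y j f = f := by
  have := hom_congr_vars (f₁ := (sub y j : MvPolynomial (K × ℕ) ℂ →ₐ[ℂ] _).toRingHom)
    (f₂ := RingHom.id _) (p₁ := f) (p₂ := f) ?_ ?_ rfl
  · exact this
  · ext a <;> simp [sub]
  · intro x hx _
    change sub y j (X x) = X x
    obtain ⟨κ, a⟩ := x
    rw [sub_X, tau, if_neg (hf _ hx)]

lemma Psi_of_YF {y : ℕ} {f : MvPolynomial (K × ℕ) ℂ} (hf : YF y f) : Psi y f = C f := by
  have := hom_congr_vars (f₁ := (Psi y : MvPolynomial (K × ℕ) ℂ →ₐ[ℂ] _).toRingHom)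
    (f₂ := (C : MvPolynomial (K × ℕ) ℂ →+* MvPolynomial K (MvPolynomial (K × ℕ) ℂ)))
    (p₁ := f) (p₂ := f) ?_ ?_ rfl
  · exact this
  · ext a
    simp [Psi]
  · intro x hx _
    change Psi y (X x) = C (X x)
    rw [Psi, aeval_X, if_neg (hf _ hx)]

lemma YF_C (y : ℕ) (r : ℂ) : YF y (C r : MvPolynomial (K × ℕ) ℂ) := by
  intro x hx
  rw [vars_C] at hx
  exact absurd hx (Finset.notMem_empty x)

lemma YF_mon {y j : ℕ} (h : j ≠ y) (c : K →₀ ℕ) : YF y (mon c j) := by
  classical
  intro x hx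
  have := vars_rename (fun κ : K => (κ, j)) (monomial c (1 : ℂ)) hx
  rw [Finset.mem_image] at this
  obtain ⟨a, _, ha⟩ := this
  rw [← ha]; exact h

lemma YF_pw {y : ℕ} {P : Finset ℕ} (h : y ∉ P) (w : ℕ → ℂ) (c : K →₀ ℕ) : YF y (pw P w c) := by
  classical
  intro x hx
  have h1 := vars_sum_subset P (fun j => (C (w j) * mon c j : MvPolynomial (K × ℕ) ℂ)) hx
  rw [Finset.mem_biUnion] at h1
  obtain ⟨j, hj, hx2⟩ := h1
  have h2 := vars_mul _ _ hx2
  rw [vars_C, Finset.empty_union] at h2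
  have hjy : j ≠ y := fun hh => h (hh ▸ hj)
  exact YF_mon hjy c x h2

lemma Psi_mon (y : ℕ) (c : K →₀ ℕ) :
    Psi y (mon c y) = monomial c (1 : MvPolynomial (K × ℕ) ℂ) := by
  unfold Psi mon
  rw [aeval_rename, aeval_monomial]
  simp only [Function.comp, if_true, map_one, one_mul]
  rw [monomial_eq]
  simp

lemma span_homog {P : Finset ℕ} {w : ℕ → ℂ} {I : Finset (K →₀ ℕ)} {t : (K →₀ ℕ) → ℕ}
    {f : MvPolynomial (K × ℕ) ℂ} {e : ℕ} (hf : f.IsHomogeneous e) (h : f ∈ pI P w I t) :
    ∃ g : (K →₀ ℕ) → MvPolynomial (K × ℕ) ℂ,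
      (∀ c, g c = 0 ∨ ∃ m, m + c.degree * t c = e ∧ (g c).IsHomogeneous m) ∧
      f = ∑ c ∈ I, pw P w c ^ t c * g c := by
  unfold pI at h
  rw [Ideal.span, Submodule.mem_span_image_finset_iff_exists_fun'] at h
  obtain ⟨g, hg⟩ := h
  refine ⟨fun c => if c.degree * t c ≤ e then homogeneousComponent (e - c.degree * t c) (g c)
    else 0, ?_, ?_⟩
  · intro c
    by_cases hc : c.degree * t c ≤ e
    · right
      refine ⟨e - c.degree * t c, by omega, ?_⟩
      simp only [hc, if_true]
      exact homogeneousComponent_isHomogeneous _ _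
    · left; simp only [hc, if_false]
  · conv_lhs => rw [← homogeneousComponent_eq_self hf, ← hg, map_sum]
    refine Finset.sum_congr rfl fun c _ => ?_
    rw [smul_eq_mul, mul_comm (g c), comp_mul ((pw_isHomogeneous P w c).pow _)]
    by_cases hc : c.degree * t c ≤ e
    · simp only [hc, if_true]
    · simp only [hc, if_false, mul_zero]

lemma degree_sub_single [DecidableEq K] {κ : K} {c : K →₀ ℕ} (h : c κ ≠ 0) :
    (c - Finsupp.single κ 1).degree + 1 = c.degree := by
  have h1 : c - Finsupp.single κ 1 + Finsupp.single κ 1 = c := by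
    ext x
    by_cases hx : x = κ
    · subst hx; simp; omega
    · simp [Ne.symm hx]
  conv_rhs => rw [← h1]
  simp

lemma step [DecidableEq K] {P : Finset ℕ} {w : ℕ → ℂ} (hw : ∀ j ∈ P, w j ≠ 0) (hX : XP K P w)
    (I : Finset (K →₀ ℕ)) (t : (K →₀ ℕ) → ℕ) (hI : ∀ c ∈ I, c ≠ 0)
    (c0 : K →₀ ℕ) (hc0 : c0 ∉ I) (hc0' : c0 ≠ 0)
    (e : ℕ) (he : e ≤ P.card) (s m : ℕ) (h : MvPolynomial (K × ℕ) ℂ) (hh : h.IsHomogeneous m)
    (hm : m + c0.degree * (s + 1) = e)
    (g : (K →₀ ℕ) → MvPolynomial (K × ℕ) ℂ)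
    (hg : ∀ c, g c = 0 ∨ ∃ m, m + c.degree * t c = e ∧ (g c).IsHomogeneous m)
    (hrel : pw P w c0 ^ (s + 1) * h = ∑ c ∈ I, pw P w c ^ t c * g c) :
    pw P w c0 ^ s * h ∈ pI P w (insert c0 I) (Function.update t c0 (s + 1)) := by
  classical
  set t' := Function.update t c0 (s + 1) with ht'
  set q := pI P w (insert c0 I) t' with hq
  have hIins : ∀ c ∈ insert c0 I, c ≠ 0 := by
    intro c hc
    rcases Finset.mem_insert.1 hc with rfl | hc
    · exact hc0'
    · exact hI c hc
  -- choose the row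
  obtain ⟨κ, hκ⟩ : ∃ κ, c0 κ ≠ 0 := by
    by_contra hcon
    push Not at hcon
    exact hc0' (Finsupp.ext hcon)
  -- choose the fresh point
  obtain ⟨y, hy⟩ := Infinite.exists_notMem_finset
    (P ∪ (h.vars.image Prod.snd ∪ I.biUnion fun c => (g c).vars.image Prod.snd))
  rw [Finset.mem_union, Finset.mem_union] at hy
  push Not at hy
  obtain ⟨hyP, hyh, hyg⟩ := hy
  have hYFh : YF y h := fun x hx hxy => hyh (Finset.mem_image.2 ⟨x, hx, hxy⟩)
  have hYFg : ∀ c ∈ I, YF y (g c) := fun c hc x hx hxy =>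
    hyg (Finset.mem_biUnion.2 ⟨c, hc, Finset.mem_image.2 ⟨x, hx, hxy⟩⟩)
  set δ : K →₀ ℕ := Finsupp.single κ 1 with hδ
  -- the polynomial G
  set A : ℕ → MvPolynomial (K × ℕ) ℂ := fun j =>
    C (((s + 1 : ℕ) : ℂ) * (c0 κ : ℂ)) * mon (c0 - δ) j * (pw P w c0 ^ s * h)
      - ∑ c ∈ I, C ((t c : ℂ) * (c κ : ℂ)) * mon (c - δ) j * (pw P w c ^ (t c - 1) * g c) with hA
  have hsubA : ∀ j ∈ P, sub y j (A y) = A j := by
    intro j _
    have htau : tau y j y = j := by simp [tau]
    have hs1 : ∀ c ∈ I, sub y j (C ((t c : ℂ) * (c κ : ℂ)) * mon (c - δ) y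
        * (pw P w c ^ (t c - 1) * g c)) = C ((t c : ℂ) * (c κ : ℂ)) * mon (c - δ) j
        * (pw P w c ^ (t c - 1) * g c) := by
      intro c hc
      rw [map_mul (sub y j), map_mul (sub y j), map_mul (sub y j), map_pow (sub y j), sub_mon,
        sub_pw_of_notMem j hyP, sub_of_YF j (hYFg c hc), sub_C, htau]
    simp only [hA]
    rw [map_sub (sub y j), map_sum (sub y j), Finset.sum_congr rfl hs1, map_mul (sub y j),
      map_mul (sub y j), map_mul (sub y j), map_pow (sub y j), sub_mon,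
      sub_pw_of_notMem j hyP, sub_of_YF j hYFh, sub_C, htau]
  -- derivative of the relation
  have hder : ∀ j ∈ P, C (w j) * A j
      = (∑ c ∈ I, pw P w c ^ t c * pderiv (κ, j) (g c))
        - pw P w c0 ^ (s + 1) * pderiv (κ, j) h := by
    intro j hj
    have h1 := congrArg (pderiv (κ, j)) hrel
    rw [map_sum, Derivation.leibniz, Derivation.leibniz_pow, pderiv_pw κ c0 P w hj] at h1
    have h2 : ∀ c ∈ I, pderiv (κ, j) (pw P w c ^ t c * g c)
        = pw P w c ^ t c * pderiv (κ, j) (g c)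
          + C (w j) * (C ((t c : ℂ) * (c κ : ℂ)) * mon (c - δ) j
              * (pw P w c ^ (t c - 1) * g c)) := by
      intro c _
      rw [Derivation.leibniz, Derivation.leibniz_pow, pderiv_pw κ c P w hj]
      simp only [smul_eq_mul, nsmul_eq_mul, C_mul, map_natCast]
      ring
    rw [Finset.sum_congr rfl h2, Finset.sum_add_distrib] at h1
    simp only [hA, mul_sub, Finset.mul_sum]
    simp only [smul_eq_mul, nsmul_eq_mul, C_mul, map_natCast] at h1 ⊢
    rw [sub_eq_sub_iff_add_eq_add]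
    rw [Nat.add_sub_cancel] at h1
    calc _ = pw P w c0 ^ (s + 1) * pderiv (κ, j) h
          + h * (((s + 1 : ℕ) : MvPolynomial (K × ℕ) ℂ) * (pw P w c0 ^ s *
            (C (w j) * ((c0 κ : MvPolynomial (K × ℕ) ℂ) * mon (c0 - δ) j)))) := by ring
      _ = _ := by rw [h1]
  -- membership for each j
  have hmemj : ∀ j ∈ P, sub y j (A y) ∈ q := by
    intro j hj
    rw [hsubA j hj]
    have h1 : C (w j) * A j ∈ q := by
      rw [hder j hj]
      refine Ideal.sub_mem _ (Ideal.sum_mem _ fun c hc => ?_) ?_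
      · refine Ideal.mul_mem_right _ _ (Ideal.subset_span ⟨c, ?_, ?_⟩)
        · simp [hc]
        · have : c ≠ c0 := fun hh => hc0 (hh ▸ hc)
          simp [ht', Function.update_of_ne this]
      · refine Ideal.mul_mem_right _ _ (Ideal.subset_span ⟨c0, by simp, ?_⟩)
        simp [ht']
    have h2 : C (w j)⁻¹ * (C (w j) * A j) = A j := by
      rw [← mul_assoc, ← C_mul, inv_mul_cancel₀ (hw j hj), C_1, one_mul]
    rw [← h2]
    exact Ideal.mul_mem_left _ _ h1
  have hc0deg : (c0 - δ).degree + 1 = c0.degree := degree_sub_single hκ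
  have he1 : 1 ≤ e := by
    have := degree_pos hc0'
    rw [Nat.mul_succ] at hm; omega
  -- homogeneity of G
  have hAhom : (A y).IsHomogeneous (e - 1) := by
    simp only [hA]
    refine IsHomogeneous.sub ?_ (IsHomogeneous.sum _ _ _ fun c _ => ?_)
    · have h1 := ((mon_isHomogeneous (c0 - δ) y).C_mul (((s + 1 : ℕ) : ℂ) * (c0 κ : ℂ))).mul
        (((pw_isHomogeneous P w c0).pow s).mul hh)
      have : (c0 - δ).degree + (c0.degree * s + m) = e - 1 := by
        rw [Nat.mul_succ] at hm; omega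
      rwa [this] at h1
    · rcases hg c with h0 | ⟨mc, hmc, hgc⟩
      · rw [h0, mul_zero, mul_zero]; exact isHomogeneous_zero _ _ _
      · by_cases htc : t c = 0
        · simp only [htc, Nat.cast_zero, zero_mul, C_0]
          exact isHomogeneous_zero _ _ _
        by_cases hcκ : c κ = 0
        · simp only [hcκ, Nat.cast_zero, mul_zero, C_0, zero_mul]
          exact isHomogeneous_zero _ _ _
        have h1 := ((mon_isHomogeneous (c - δ) y).C_mul ((t c : ℂ) * (c κ : ℂ))).mul
          (((pw_isHomogeneous P w c).pow (t c - 1)).mul hgc)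
        have hcdeg : (c - δ).degree + 1 = c.degree := degree_sub_single hcκ
        have : (c - δ).degree + (c.degree * (t c - 1) + mc) = e - 1 := by
          obtain ⟨r, hr⟩ : ∃ r, t c = r + 1 := ⟨t c - 1, by omega⟩
          rw [hr] at hmc ⊢
          rw [Nat.mul_succ] at hmc
          simp only [Nat.add_sub_cancel]
          omega
        rwa [this] at h1
  -- E lemma
  have hE := E_lemma hX hyP P (Finset.Subset.refl P) (insert c0 I) t' hIins (A y) (e - 1) hAhom
    (by omega) hmemj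
  have hAq : A y ∈ q := by
    obtain ⟨F, hF, H, hH, hFH⟩ := Submodule.mem_sup.1 hE
    have hH0 : homogeneousComponent (e - 1) H = 0 :=
      eq_zero_of_mem_J (homogeneousComponent_isHomogeneous _ _) (by omega) ((HI_J y P).comp_mem hH _)
    have : A y = homogeneousComponent (e - 1) F := by
      conv_lhs => rw [← homogeneousComponent_eq_self hAhom, ← hFH, map_add, hH0, add_zero]
    rw [this]
    exact (HI_pI P w _ _).comp_mem hF _
  -- coefficient extraction
  have hPsi : Psi y (A y) ∈ Ideal.map (C : MvPolynomial (K × ℕ) ℂ →+* _) q := by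
    have : q ≤ (Ideal.map (C : MvPolynomial (K × ℕ) ℂ →+* MvPolynomial K _) q).comap
        (Psi y).toRingHom := by
      rw [hq]
      conv_lhs => rw [pI]
      rw [Ideal.span_le]
      rintro _ ⟨c, hc, rfl⟩
      change Psi y (pw P w c ^ t' c) ∈ Ideal.map (C : MvPolynomial (K × ℕ) ℂ →+*
        MvPolynomial K (MvPolynomial (K × ℕ) ℂ)) (pI P w (insert c0 I) t')
      rw [map_pow, Psi_of_YF (YF_pw hyP w c), ← map_pow]
      exact Ideal.mem_map_of_mem _ (Ideal.subset_span ⟨c, hc, rfl⟩)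
    exact this hAq
  rw [mem_map_C_iff] at hPsi
  have hco := hPsi (c0 - δ)
  have hPsiA : Psi y (A y) = monomial (c0 - δ)
        (C (((s + 1 : ℕ) : ℂ) * (c0 κ : ℂ)) * (pw P w c0 ^ s * h))
      - ∑ c ∈ I, monomial (c - δ) (C ((t c : ℂ) * (c κ : ℂ)) * (pw P w c ^ (t c - 1) * g c)) := by
    simp only [hA, map_sub, map_sum]
    congr 1
    · rw [map_mul (Psi y), map_mul (Psi y), Psi_mon, map_mul (Psi y), map_pow (Psi y),
        Psi_of_YF (YF_pw hyP w c0), Psi_of_YF hYFh, ← map_pow, ← map_mul]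
      have : Psi y (C (((s + 1 : ℕ) : ℂ) * (c0 κ : ℂ)) : MvPolynomial (K × ℕ) ℂ)
          = C (C (((s + 1 : ℕ) : ℂ) * (c0 κ : ℂ))) := Psi_of_YF (YF_C y _)
      rw [this, mul_assoc, mul_comm (monomial (c0 - δ) 1), ← mul_assoc, ← C_mul, C_mul_monomial,
        mul_one]
    · refine Finset.sum_congr rfl fun c hc => ?_
      rw [map_mul (Psi y), map_mul (Psi y), Psi_mon, map_mul (Psi y), map_pow (Psi y),
        Psi_of_YF (YF_pw hyP w c), Psi_of_YF (hYFg c hc), ← map_pow, ← map_mul]
      have : Psi y (C ((t c : ℂ) * (c κ : ℂ)) : MvPolynomial (K × ℕ) ℂ)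
          = C (C ((t c : ℂ) * (c κ : ℂ))) := Psi_of_YF (YF_C y _)
      rw [this, mul_assoc, mul_comm (monomial (c - δ) 1), ← mul_assoc, ← C_mul, C_mul_monomial,
        mul_one]
  have hco2 : coeff (c0 - δ) (Psi y (A y))
      = C (((s + 1 : ℕ) : ℂ) * (c0 κ : ℂ)) * (pw P w c0 ^ s * h) := by
    rw [hPsiA, coeff_sub, coeff_monomial, if_pos rfl, coeff_sum]
    have : ∀ c ∈ I, coeff (c0 - δ) (monomial (c - δ)
        (C ((t c : ℂ) * (c κ : ℂ)) * (pw P w c ^ (t c - 1) * g c))) = 0 := by
      intro c hc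
      rw [coeff_monomial]
      split_ifs with heq
      · by_cases hcκ : c κ = 0
        · simp [hcκ]
        · exfalso
          apply hc0
          have : c = c0 := by
            ext x
            have hx := DFunLike.congr_fun heq x
            by_cases hxκ : x = κ
            · subst hxκ
              simp [hδ] at hx
              omega
            · simpa [hδ, Finsupp.single_apply, Ne.symm hxκ] using hx
          rwa [this] at hc
      · rfl
    rw [Finset.sum_eq_zero this, sub_zero]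
  rw [hco2] at hco
  have hne : (((s + 1 : ℕ) : ℂ) * (c0 κ : ℂ)) ≠ 0 := by
    apply mul_ne_zero
    · exact_mod_cast Nat.succ_ne_zero s
    · exact_mod_cast hκ
  have h2 : C (((s + 1 : ℕ) : ℂ) * (c0 κ : ℂ))⁻¹
      * (C (((s + 1 : ℕ) : ℂ) * (c0 κ : ℂ)) * (pw P w c0 ^ s * h)) = pw P w c0 ^ s * h := by
    rw [← mul_assoc, ← C_mul, inv_mul_cancel₀ hne, C_1, one_mul]
  rw [← h2]
  exact Ideal.mul_mem_left _ _ hco

lemma F_of_X [DecidableEq K] {P : Finset ℕ} {w : ℕ → ℂ} (hw : ∀ j ∈ P, w j ≠ 0)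
    (hX : XP K P w) : FP K P w := by
  intro I t c0 f ν hI hc0 hc0' hf hν hmem
  have hupd : ∀ s, pI P w I (Function.update t c0 s) = pI P w I t := fun s => by
    apply pI_congr
    intro c hc
    have hne : c ≠ c0 := fun hh => hc0 (hh ▸ hc)
    exact Function.update_of_ne hne _ _
  have hdec : ∀ s, f ∈ pI P w (insert c0 I) (Function.update t c0 s) →
      f ∈ pI P w I t ∨ ∃ (h F : MvPolynomial (K × ℕ) ℂ) (m : ℕ), m + c0.degree * s = ν ∧
        h.IsHomogeneous m ∧ F ∈ pI P w I t ∧ f = pw P w c0 ^ s * h + F := by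
    intro s hs
    rw [pI_insert, hupd, Function.update_self] at hs
    obtain ⟨a, ha, F, hF, hab⟩ := Submodule.mem_sup.1 hs
    obtain ⟨h0, rfl⟩ := Ideal.mem_span_singleton.1 ha
    have hc : f = homogeneousComponent ν (pw P w c0 ^ s * h0) + homogeneousComponent ν F := by
      conv_lhs => rw [← homogeneousComponent_eq_self hf, ← hab, map_add]
    rw [comp_mul ((pw_isHomogeneous P w c0).pow s)] at hc
    have hF' := (HI_pI P w I t).comp_mem hF ν
    by_cases hle : c0.degree * s ≤ ν
    · right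
      rw [if_pos hle] at hc
      exact ⟨_, _, ν - c0.degree * s, by omega, homogeneousComponent_isHomogeneous _ _, hF', hc⟩
    · left
      rw [if_neg hle, zero_add] at hc
      rw [hc]; exact hF'
  have hall : ∀ s, f ∈ pI P w I t ∨ f ∈ pI P w (insert c0 I) (Function.update t c0 s) := by
    intro s
    induction s with
    | zero =>
      right
      have : (1 : MvPolynomial (K × ℕ) ℂ) ∈ pI P w (insert c0 I) (Function.update t c0 0) :=
        Ideal.subset_span ⟨c0, by simp, by simp⟩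
      rw [(Ideal.eq_top_iff_one _).2 this]
      trivial
    | succ s ih =>
      rcases ih with h | h
      · left; exact h
      rcases hdec s h with h | ⟨h, F, m, hm, hh, hF, hfe⟩
      · left; exact h
      right
      have hrel0 : pw P w c0 ^ (s + 1) * h ∈ pI P w I t := by
        have : pw P w c0 ^ (s + 1) * h = pw P w c0 * f - pw P w c0 * F := by rw [hfe]; ring
        rw [this]
        exact Ideal.sub_mem _ hmem (Ideal.mul_mem_left _ _ hF)
      have hhom : (pw P w c0 ^ (s + 1) * h).IsHomogeneous (ν + c0.degree) := by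
        have := ((pw_isHomogeneous P w c0).pow (s + 1)).mul hh
        have e1 : c0.degree * (s + 1) + m = ν + c0.degree := by
          rw [Nat.mul_succ]; omega
        rwa [e1] at this
      obtain ⟨g, hg, hrel⟩ := span_homog hhom hrel0
      have hst := step hw hX I t hI c0 hc0 hc0' (ν + c0.degree) hν s m h hh
        (by rw [Nat.mul_succ]; omega) g hg hrel
      rw [hfe]
      refine Ideal.add_mem _ hst ?_
      have : pI P w I t ≤ pI P w (insert c0 I) (Function.update t c0 (s + 1)) := by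
        rw [pI_insert, hupd]; exact le_sup_right
      exact this hF
  rcases hall (ν + 1) with h | h
  · exact h
  rcases hdec _ h with h | ⟨h, F, m, hm, _⟩
  · exact h
  · exfalso
    have := degree_pos hc0'
    nlinarith

/-- admissible weights: no nonempty subset sums to zero. -/
def Adm (P : Finset ℕ) (w : ℕ → ℂ) : Prop := ∀ B ⊆ P, B.Nonempty → ∑ j ∈ B, w j ≠ 0

lemma Adm.merge {P : Finset ℕ} {w : ℕ → ℂ} (h : Adm P w) {i l : ℕ} (hi : i ∈ P) (_hl : l ∈ P)
    (hil : i ≠ l) : Adm (P.erase i) (merge w i l) := by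
  intro B hB hne
  have hiB : i ∉ B := fun hh => (Finset.mem_erase.1 (hB hh)).1 rfl
  by_cases hlB : l ∈ B
  · have h1 : ∑ j ∈ B, DiagCoinv.merge w i l j = ∑ j ∈ insert i B, w j := by
      rw [Finset.sum_insert hiB, ← Finset.add_sum_erase B _ hlB, ← Finset.add_sum_erase B w hlB]
      rw [DiagCoinv.merge, Function.update_self]
      have : ∑ x ∈ B.erase l, Function.update w l (w l + w i) x = ∑ x ∈ B.erase l, w x := by
        refine Finset.sum_congr rfl fun x hx => ?_
        rw [Function.update_of_ne (Finset.mem_erase.1 hx).1]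
      rw [this]; ring
    rw [h1]
    refine h _ ?_ (Finset.insert_nonempty _ _)
    intro x hx
    rcases Finset.mem_insert.1 hx with rfl | hx
    · exact hi
    · exact Finset.mem_of_mem_erase (hB hx)
  · have h1 : ∑ j ∈ B, DiagCoinv.merge w i l j = ∑ j ∈ B, w j := by
      refine Finset.sum_congr rfl fun x hx => ?_
      have : x ≠ l := fun hh => hlB (hh ▸ hx)
      rw [DiagCoinv.merge, Function.update_of_ne this]
    rw [h1]
    exact h _ (fun x hx => Finset.mem_of_mem_erase (hB hx)) hne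

theorem main_X_F (K : Type) [DecidableEq K] (n : ℕ) : ∀ (P : Finset ℕ) (w : ℕ → ℂ),
    P.card = n → Adm P w → XP K P w ∧ FP K P w := by
  induction n with
  | zero =>
    intro P w hP hA
    have hP0 : P = ∅ := Finset.card_eq_zero.1 hP
    subst hP0
    have hX : XP K ∅ w := by
      intro i hi; simp at hi
    exact ⟨hX, F_of_X (by simp) hX⟩
  | succ n ih =>
    intro P w hP hA
    have hX : XP K P w := by
      apply X_of_Y
      intro i hi l hl hil
      have hcard : (P.erase i).card = n := by rw [Finset.card_erase_of_mem hi, hP]; rfl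
      obtain ⟨h1, h2⟩ := ih (P.erase i) (merge w i l) hcard (hA.merge hi hl hil)
      exact Y_of_F_X h2 h1
    refine ⟨hX, F_of_X ?_ hX⟩
    intro j hj
    have := hA {j} (by simpa using hj) (Finset.singleton_nonempty j)
    simpa using this

end Pool.Agent.DiagCoinv
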