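import Pool.Agent.DiagCoinv.Final

set_option autoImplicit false

open MvPolynomial

noncomputable section

namespace Pool.Agent.DiagCoinv

/-- additivity of the trace on short exact sequences. -/
theorem trace_exact {M' M M'' : Type*} [AddCommGroup M'] [Module ℂ M'] [AddCommGroup M]
    [Module ℂ M] [AddCommGroup M''] [Module ℂ M''] [FiniteDimensional ℂ M']
    [FiniteDimensional ℂ M] [FiniteDimensional ℂ M''] (i : M' →ₗ[ℂ] M) (q : M →ₗ[ℂ] M'')
    (hi : Function.Injective i) (hq : Function.Surjective q) (hex : ∀ m, q m = 0 ↔ ∃ x, i x = m)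
    (f' : M' →ₗ[ℂ] M') (f : M →ₗ[ℂ] M) (f'' : M'' →ₗ[ℂ] M'')
    (h1 : ∀ x, f (i x) = i (f' x)) (h2 : ∀ m, q (f m) = f'' (q m)) :
    LinearMap.trace ℂ M f = LinearMap.trace ℂ M' f' + LinearMap.trace ℂ M'' f'' := by
  obtain ⟨p, hp⟩ := i.exists_leftInverse_of_injective (LinearMap.ker_eq_bot.2 hi)
  obtain ⟨s0, hs0⟩ := q.exists_rightInverse_of_surjective (LinearMap.range_eq_top.2 hq)
  have hp' : ∀ x, p (i x) = x := fun x => LinearMap.congr_fun hp x
  have hs0' : ∀ y, q (s0 y) = y := fun y => LinearMap.congr_fun hs0 y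
  have hqi : ∀ x, q (i x) = 0 := fun x => (hex _).2 ⟨x, rfl⟩
  set s : M'' →ₗ[ℂ] M := s0 - i ∘ₗ p ∘ₗ s0 with hs
  have hs' : ∀ y, q (s y) = y := by
    intro y
    simp [hs, hqi, hs0']
  have hid : ∀ m, m = i (p m) + s (q m) := by
    intro m
    obtain ⟨x, hx⟩ := (hex (s0 (q m) - m)).1 (by rw [map_sub, hs0', sub_self])
    have hx' : s0 (q m) = m + i x := by rw [hx]; abel
    simp only [hs, LinearMap.sub_apply, LinearMap.comp_apply, hx', map_add, hp']
    abel
  have e1 : f = (f ∘ₗ i) ∘ₗ p + (f ∘ₗ s) ∘ₗ q := by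
    ext m
    simp only [LinearMap.add_apply, LinearMap.comp_apply]
    rw [← map_add, ← hid m]
  have e2 : p ∘ₗ f ∘ₗ i = f' := by
    ext x
    simp [h1, hp']
  have e3 : q ∘ₗ f ∘ₗ s = f'' := by
    ext y
    simp [h2, hs']
  calc LinearMap.trace ℂ M f = LinearMap.trace ℂ M ((f ∘ₗ i) ∘ₗ p + (f ∘ₗ s) ∘ₗ q) := by
        rw [← e1]
    _ = LinearMap.trace ℂ M' (p ∘ₗ f ∘ₗ i) + LinearMap.trace ℂ M'' (q ∘ₗ f ∘ₗ s) := by
        rw [map_add, LinearMap.trace_comp_comm', LinearMap.trace_comp_comm' q]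
    _ = _ := by rw [e2, e3]

variable {k n : ℕ}

/-- the trace of a permutation on a stable space of polynomials. -/
def ts (σ : Equiv.Perm (Fin n)) (U : Submodule ℂ (MvPolynomial (Fin k × Fin n) ℂ))
    (hU : ∀ f ∈ U, (ren k σ).toLinearMap f ∈ U) : ℂ :=
  LinearMap.trace ℂ U ((ren k σ).toLinearMap.restrict hU)

theorem ren_mem_V (σ : Equiv.Perm (Fin n)) {I : Finset (Fin k →₀ ℕ)}
    {f : MvPolynomial (Fin k × Fin n) ℂ} (hf : f ∈ V n I) : ren k σ f ∈ V n I := by
  have : V n I ≤ (V n I).comap (ren k σ).toRingHom := by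
    conv_lhs => rw [V]
    rw [Ideal.span_le]
    rintro _ ⟨c, hc, rfl⟩
    refine Ideal.subset_span ⟨c, hc, ?_⟩
    exact (ren_ps σ c).symm
  exact this hf

/-- the degree-`a` part of `V n I`. -/
def DV (n : ℕ) (I : Finset (Fin k →₀ ℕ)) (a : Fin k → ℕ) :
    Submodule ℂ (MvPolynomial (Fin k × Fin n) ℂ) :=
  Dg n a ⊓ Submodule.restrictScalars ℂ (V n I)

instance finiteDV (I : Finset (Fin k →₀ ℕ)) (a : Fin k → ℕ) :
    FiniteDimensional ℂ (DV n I a) := Submodule.finiteDimensional_of_le inf_le_left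

theorem stable_Dg (σ : Equiv.Perm (Fin n)) (a : Fin k → ℕ) :
    ∀ f ∈ Dg n a, (ren k σ).toLinearMap f ∈ Dg n a := fun _ hf => ren_mem_Dg σ hf

theorem stable_DV (σ : Equiv.Perm (Fin n)) (I : Finset (Fin k →₀ ℕ)) (a : Fin k → ℕ) :
    ∀ f ∈ DV n I a, (ren k σ).toLinearMap f ∈ DV n I a := fun _ hf =>
  ⟨ren_mem_Dg σ hf.1, ren_mem_V σ hf.2⟩

/-- the character of the degree-`a` part modulo `V I`. -/
def hs (σ : Equiv.Perm (Fin n)) (I : Finset (Fin k →₀ ℕ)) (a : Fin k → ℕ) : ℂ :=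
  ts σ (Dg n a) (stable_Dg σ a) - ts σ (DV n I a) (stable_DV σ I a)

theorem ts_congr (σ : Equiv.Perm (Fin n)) {U U' : Submodule ℂ (MvPolynomial (Fin k × Fin n) ℂ)}
    (h : U = U') (hU : ∀ f ∈ U, (ren k σ).toLinearMap f ∈ U)
    (hU' : ∀ f ∈ U', (ren k σ).toLinearMap f ∈ U') : ts σ U hU = ts σ U' hU' := by
  subst h
  rfl

theorem DV_insert_not_le (I : Finset (Fin k →₀ ℕ))
    (c0 : Fin k →₀ ℕ) (a : Fin k → ℕ) (hle : ¬ (⇑c0 : Fin k → ℕ) ≤ a) :
    DV n (insert c0 I) a = DV n I a := by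
  apply le_antisymm
  · rintro f ⟨hfW, hfV⟩
    refine ⟨hfW, ?_⟩
    rw [SetLike.mem_coe, Submodule.restrictScalars_mem] at hfV ⊢
    rw [V_insert] at hfV
    obtain ⟨x, hx, v, hv, rfl⟩ := Submodule.mem_sup.1 hfV
    obtain ⟨g, rfl⟩ := Ideal.mem_span_singleton.1 hx
    have h1 := wc_self hfW
    rw [map_add, wc_mul_not_le (ps_mem_Dg c0) hle, zero_add] at h1
    rw [← h1]
    exact wc_mem_V I a hv
  · refine inf_le_inf_left _ ?_
    intro f hf
    rw [Submodule.restrictScalars_mem] at hf ⊢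
    rw [V_insert]
    exact Submodule.mem_sup_right hf

theorem hs_insert_not_le (σ : Equiv.Perm (Fin n)) (I : Finset (Fin k →₀ ℕ))
    (c0 : Fin k →₀ ℕ) (a : Fin k → ℕ) (hle : ¬ (⇑c0 : Fin k → ℕ) ≤ a) :
    hs σ (insert c0 I) a = hs σ I a := by
  unfold hs
  congr 1
  exact ts_congr σ (DV_insert_not_le I c0 a hle) _ _

theorem hs_insert_le (σ : Equiv.Perm (Fin n)) (I : Finset (Fin k →₀ ℕ))
    (c0 : Fin k →₀ ℕ) (hI : ∀ c ∈ I, c ≠ 0) (hc0 : c0 ∉ I) (hc0' : c0 ≠ 0)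
    (a : Fin k → ℕ) (ha : ∑ i, a i ≤ n) (hle : (⇑c0 : Fin k → ℕ) ≤ a) :
    hs σ (insert c0 I) a = hs σ I a - hs σ I (a - ⇑c0) := by
  have hac : (⇑c0 : Fin k → ℕ) + (a - ⇑c0) = a := add_tsub_cancel_of_le hle
  have hmulD : ∀ g ∈ Dg n (a - ⇑c0), ps n c0 * g ∈ Dg n a := by
    intro g hg
    have h1 := IsWeightedHomogeneous.mul (w := wt k n) (ps_mem_Dg (n := n) c0) hg
    rw [hac] at h1
    exact h1
  have hmulV : ∀ g : MvPolynomial (Fin k × Fin n) ℂ, ps n c0 * g ∈ V n (insert c0 I) := by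
    intro g
    rw [V_insert]
    exact Submodule.mem_sup_left (Ideal.mem_span_singleton.2 ⟨g, rfl⟩)
  have hVV : ∀ g ∈ V n I, g ∈ V n (insert c0 I) := by
    intro g hg
    rw [V_insert]
    exact Submodule.mem_sup_right hg
  -- the maps of the exact sequence
  let i1 : DV n I (a - ⇑c0) →ₗ[ℂ] DV n I a :=
    { toFun := fun g => ⟨-(ps n c0 * g.1), ⟨Submodule.neg_mem _ (hmulD _ g.2.1),
        Ideal.neg_mem_iff _ |>.2 (Ideal.mul_mem_left _ _ g.2.2)⟩⟩
      map_add' := fun x y => Subtype.ext (by simp [mul_add]; ring)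
      map_smul' := fun r x => Subtype.ext (by simp) }
  let i2 : DV n I (a - ⇑c0) →ₗ[ℂ] Dg n (a - ⇑c0) :=
    { toFun := fun g => ⟨g.1, g.2.1⟩
      map_add' := fun x y => rfl
      map_smul' := fun r x => rfl }
  let q1 : DV n I a →ₗ[ℂ] DV n (insert c0 I) a :=
    { toFun := fun g => ⟨g.1, ⟨g.2.1, hVV _ g.2.2⟩⟩
      map_add' := fun x y => rfl
      map_smul' := fun r x => rfl }
  let q2 : Dg n (a - ⇑c0) →ₗ[ℂ] DV n (insert c0 I) a :=
    { toFun := fun g => ⟨ps n c0 * g.1, ⟨hmulD _ g.2, hmulV _⟩⟩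
      map_add' := fun x y => Subtype.ext (by simp [mul_add])
      map_smul' := fun r x => Subtype.ext (by simp) }
  have key := trace_exact (i1.prod i2) (q1.coprod q2) ?_ ?_ ?_
    ((ren k σ).toLinearMap.restrict (stable_DV σ I (a - ⇑c0)))
    (((ren k σ).toLinearMap.restrict (stable_DV σ I a)).prodMap
      ((ren k σ).toLinearMap.restrict (stable_Dg σ (a - ⇑c0))))
    ((ren k σ).toLinearMap.restrict (stable_DV σ (insert c0 I) a)) ?_ ?_
  · rw [LinearMap.trace_prodMap'] at key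
    unfold hs ts
    linear_combination key
  · intro x y hxy
    have h1 := congrArg Prod.snd hxy
    have h2 := congrArg Subtype.val h1
    exact Subtype.ext h2
  · rintro ⟨f, hfD, hfV⟩
    have hfV' : f ∈ V n (insert c0 I) := hfV
    rw [V_insert] at hfV'
    obtain ⟨x, hx, v, hv, hxv⟩ := Submodule.mem_sup.1 hfV'
    obtain ⟨g, rfl⟩ := Ideal.mem_span_singleton.1 hx
    have h1 := wc_self hfD
    rw [← hxv, map_add, wc_mul_le (ps_mem_Dg c0) hle, hxv] at h1
    refine ⟨(⟨wc n a v, wc_mem a v, wc_mem_V I a hv⟩, ⟨wc n (a - ⇑c0) g, wc_mem _ _⟩),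
      Subtype.ext (Eq.trans ?_ h1)⟩
    simp only [q1, q2, LinearMap.coprod_apply, LinearMap.coe_mk, AddHom.coe_mk,
      Submodule.coe_add]
    rw [add_comm]
  · rintro ⟨⟨g, hgD, hgV⟩, ⟨h, hh⟩⟩
    constructor
    · intro h0
      have h1 := congrArg Subtype.val h0
      simp only [q1, q2, LinearMap.coprod_apply, LinearMap.coe_mk, AddHom.coe_mk,
        Submodule.coe_add, Submodule.coe_zero] at h1
      have h2 : ps n c0 * h = - g := by linear_combination h1
      have h3 : ps n c0 * h ∈ V n I := by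
        rw [h2]
        exact (Ideal.neg_mem_iff _).2 hgV
      have h4 : h ∈ V n I := by
        refine reg_V I c0 h (∑ i, (a - ⇑c0) i) hI hc0 hc0' (Dg_le _ hh) ?_ h3
        have : ∑ i, (a - ⇑c0) i + c0.degree = ∑ i, a i := by
          rw [degree_eq_sum, ← Finset.sum_add_distrib]
          refine Finset.sum_congr rfl fun i _ => ?_
          have h5 : c0 i ≤ a i := hle i
          simp only [Pi.sub_apply]
          omega
        omega
      refine ⟨⟨h, hh, h4⟩, ?_⟩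
      apply Prod.ext
      · apply Subtype.ext
        show -(ps n c0 * h) = g
        rw [h2, neg_neg]
      · rfl
    · rintro ⟨x, hx⟩
      have h1 := congrArg Prod.fst hx
      have h2 := congrArg Prod.snd hx
      have h1' : -(ps n c0 * x.1) = g := congrArg Subtype.val h1
      have h2' : x.1 = h := congrArg Subtype.val h2
      apply Subtype.ext
      simp only [q1, q2, LinearMap.coprod_apply, LinearMap.coe_mk, AddHom.coe_mk,
        Submodule.coe_add, Submodule.coe_zero]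
      rw [← h1', ← h2']
      ring
  · intro x
    apply Prod.ext
    · apply Subtype.ext
      show ren k σ (-(ps n c0 * x.1)) = -(ps n c0 * ren k σ x.1)
      rw [map_neg, map_mul, ren_ps]
    · rfl
  · rintro ⟨g, h⟩
    apply Subtype.ext
    simp only [q1, q2, LinearMap.coprod_apply, LinearMap.coe_mk, AddHom.coe_mk,
      Submodule.coe_add, LinearMap.prodMap_apply]
    show ren k σ g.1 + ps n c0 * ren k σ h.1 = ren k σ (g.1 + ps n c0 * h.1)
    rw [map_add, map_mul, ren_ps]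

/-- the character series. -/
def CS (σ : Equiv.Perm (Fin n)) (I : Finset (Fin k →₀ ℕ)) : MvPowerSeries (Fin k) ℂ :=
  fun a => hs σ I ⇑a

theorem coeff_CS (σ : Equiv.Perm (Fin n)) (I : Finset (Fin k →₀ ℕ)) (a : Fin k →₀ ℕ) :
    MvPowerSeries.coeff a (CS σ I) = hs σ I ⇑a := rfl

/-- product of `1 - X^c`. -/
def DC (I : Finset (Fin k →₀ ℕ)) : MvPowerSeries (Fin k) ℂ :=
  ∏ c ∈ I, (1 - MvPowerSeries.monomial c 1)

theorem coeff_CS_eq (σ : Equiv.Perm (Fin n)) (I : Finset (Fin k →₀ ℕ))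
    (hI : ∀ c ∈ I, c ≠ 0) : ∀ a : Fin k →₀ ℕ, a.degree ≤ n →
    MvPowerSeries.coeff a (CS σ I) = MvPowerSeries.coeff a (DC I * CS σ ∅) := by
  classical
  induction I using Finset.induction_on with
  | empty => intro a _; simp [DC]
  | insert c0 I hc0 ih =>
    intro a ha
    have hI' : ∀ c ∈ I, c ≠ 0 := fun c hc => hI c (Finset.mem_insert_of_mem hc)
    have ih' := ih hI'
    have hc0' := hI c0 (Finset.mem_insert_self _ _)
    have e1 : DC (insert c0 I) * CS σ ∅ = DC I * CS σ ∅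
        - MvPowerSeries.monomial c0 1 * (DC I * CS σ ∅) := by
      unfold DC
      rw [Finset.prod_insert hc0]; ring
    rw [e1, map_sub, MvPowerSeries.coeff_monomial_mul, ← ih' a ha, coeff_CS, coeff_CS]
    split_ifs with hle
    · rw [one_mul, ← ih' (a - c0) ?_, coeff_CS]
      · rw [hs_insert_le σ I c0 hI' hc0 hc0' ⇑a (by rwa [← degree_eq_sum]) hle]
        rfl
      · refine le_trans ?_ ha
        exact Finsupp.degree_mono tsub_le_self
    · rw [sub_zero]
      exact hs_insert_not_le σ I c0 ⇑a hle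

theorem hs_empty (σ : Equiv.Perm (Fin n)) (a : Fin k → ℕ) :
    hs σ ∅ a = ts σ (Dg n a) (stable_Dg σ a) := by
  unfold hs
  have : ts σ (DV n ∅ a) (stable_DV σ ∅ a) = 0 := by
    have h1 : DV n (∅ : Finset (Fin k →₀ ℕ)) a = ⊥ := by
      unfold DV
      rw [V_empty, Submodule.restrictScalars_bot, inf_bot_eq]
    rw [ts_congr σ h1 _ (by simp)]
    unfold ts
    have : (ren k σ).toLinearMap.restrict (p := (⊥ : Submodule ℂ
        (MvPolynomial (Fin k × Fin n) ℂ))) (q := ⊥) (by simp) = 0 :=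
      Subsingleton.elim _ _
    rw [this, map_zero]
  rw [this, sub_zero]

end Pool.Agent.DiagCoinv
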