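import Pool.Agent.DiagCoinv.Step

set_option autoImplicit false

open MvPolynomial

noncomputable section

namespace Pool.Agent.DiagCoinv

variable {k n : ℕ}

/-- power sums in finitely many points. -/
def ps (n : ℕ) (c : Fin k →₀ ℕ) : MvPolynomial (Fin k × Fin n) ℂ :=
  ∑ j : Fin n, rename (fun κ : Fin k => (κ, j)) (monomial c (1 : ℂ))

/-- embedding of the ring with `n` points. -/
def emb (k n : ℕ) : MvPolynomial (Fin k × Fin n) ℂ →ₐ[ℂ] MvPolynomial (Fin k × ℕ) ℂ :=
  rename (fun x => (x.1, (x.2 : ℕ)))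

/-- retraction. -/
def ret (k n : ℕ) : MvPolynomial (Fin k × ℕ) ℂ →ₐ[ℂ] MvPolynomial (Fin k × Fin n) ℂ :=
  aeval (fun x => if h : x.2 < n then X (x.1, ⟨x.2, h⟩) else 0)

lemma ret_emb (f : MvPolynomial (Fin k × Fin n) ℂ) : ret k n (emb k n f) = f := by
  have : (ret k n).comp (emb k n) = AlgHom.id ℂ _ := by
    apply algHom_ext
    rintro ⟨κ, j⟩
    simp [ret, emb]
  exact DFunLike.congr_fun this f

lemma emb_ps (c : Fin k →₀ ℕ) : emb k n (ps n c) = pw (Finset.range n) (fun _ => 1) c := by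
  unfold ps pw emb
  rw [map_sum, Finset.sum_range]
  refine Finset.sum_congr rfl fun j _ => ?_
  rw [rename_rename, C_1, one_mul]
  rfl

/-- ideal generated by power sums with exponents in `I`. -/
def V (n : ℕ) (I : Finset (Fin k →₀ ℕ)) : Ideal (MvPolynomial (Fin k × Fin n) ℂ) :=
  Ideal.span ((fun c => ps n c) '' (I : Set (Fin k →₀ ℕ)))

lemma adm_one (n : ℕ) : Adm (Finset.range n) (fun _ => 1) := by
  intro B _ hne
  simp only [Finset.sum_const, nsmul_eq_mul, mul_one]
  exact_mod_cast (Finset.card_pos.2 hne).ne'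

lemma reg_V (I : Finset (Fin k →₀ ℕ)) (c0 : Fin k →₀ ℕ) (f : MvPolynomial (Fin k × Fin n) ℂ)
    (ν : ℕ) (hI : ∀ c ∈ I, c ≠ 0) (hc0 : c0 ∉ I) (hc0' : c0 ≠ 0) (hf : f.IsHomogeneous ν)
    (hν : ν + c0.degree ≤ n) (hmem : ps n c0 * f ∈ V n I) : f ∈ V n I := by
  have hF := (main_X_F (Fin k) n (Finset.range n) (fun _ => 1) (Finset.card_range n)
    (adm_one n)).2
  have hmap : ∀ g ∈ V n I, emb k n g ∈ pI (Finset.range n) (fun _ => 1) I (fun _ => 1) := by
    have : V n I ≤ (pI (Finset.range n) (fun _ => 1) I (fun _ => 1)).comap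
        (emb k n).toRingHom := by
      rw [V, Ideal.span_le]
      rintro _ ⟨c, hc, rfl⟩
      refine Ideal.subset_span ⟨c, hc, ?_⟩
      change pw (Finset.range n) (fun _ => 1) c ^ 1 = emb k n (ps n c)
      rw [emb_ps, pow_one]
    exact this
  have hback : ∀ g ∈ pI (Finset.range n) (fun _ => 1) I (fun _ => 1), ret k n g ∈ V n I := by
    have : pI (Finset.range n) (fun _ => 1) I (fun _ => 1) ≤ (V n I).comap
        (ret k n).toRingHom := by
      rw [pI, Ideal.span_le]
      rintro _ ⟨c, hc, rfl⟩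
      refine Ideal.subset_span ⟨c, hc, ?_⟩
      change ps n c = ret k n (pw (Finset.range n) (fun _ => 1) c ^ 1)
      rw [pow_one, ← emb_ps, ret_emb]
    exact this
  have h1 : emb k n f ∈ pI (Finset.range n) (fun _ => 1) I (fun _ => 1) := by
    refine hF I (fun _ => 1) c0 (emb k n f) ν hI hc0 hc0' (IsHomogeneous.rename_isHomogeneous hf)
      (by rwa [Finset.card_range]) ?_
    rw [← emb_ps, ← map_mul]
    exact hmap _ hmem
  have h2 := hback _ h1
  rwa [ret_emb] at h2

/-- the action of permutations. -/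
def ren (k : ℕ) {n : ℕ} (σ : Equiv.Perm (Fin n)) :
    MvPolynomial (Fin k × Fin n) ℂ →ₐ[ℂ] MvPolynomial (Fin k × Fin n) ℂ :=
  rename (fun x : Fin k × Fin n => (x.1, σ x.2))

lemma ren_mul (σ τ : Equiv.Perm (Fin n)) (f : MvPolynomial (Fin k × Fin n) ℂ) :
    ren k σ (ren k τ f) = ren k (σ * τ) f := by
  unfold ren
  rw [rename_rename]
  rfl

lemma ren_one (f : MvPolynomial (Fin k × Fin n) ℂ) : ren k (1 : Equiv.Perm (Fin n)) f = f := by
  unfold ren
  exact rename_id_apply f

lemma ren_ps (σ : Equiv.Perm (Fin n)) (c : Fin k →₀ ℕ) : ren k σ (ps n c) = ps n c := by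
  unfold ren ps
  rw [map_sum]
  simp only [rename_rename]
  exact Fintype.sum_equiv σ _ _ fun j => rfl

/-- `x_j^c`. -/
def xm (j : Fin n) (c : Fin k →₀ ℕ) : MvPolynomial (Fin k × Fin n) ℂ :=
  rename (fun κ : Fin k => (κ, j)) (monomial c (1 : ℂ))

lemma xm_add (j : Fin n) (c d : Fin k →₀ ℕ) :
    (xm j (c + d) : MvPolynomial (Fin k × Fin n) ℂ) = xm j c * xm j d := by
  unfold xm
  rw [← map_mul, monomial_mul, one_mul]

/-- symmetrised monomials. -/
def sm (S : Finset (Fin n)) (c : Fin n → (Fin k →₀ ℕ)) : MvPolynomial (Fin k × Fin n) ℂ :=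
  ∑ σ : Equiv.Perm (Fin n), ∏ j ∈ S, xm (σ j) (c j)

/-- ideal generated by all power sums of positive degree. -/
def Vinf (k n : ℕ) : Ideal (MvPolynomial (Fin k × Fin n) ℂ) :=
  Ideal.span ((fun c => ps n c) '' {c : Fin k →₀ ℕ | c ≠ 0})

lemma ps_mul_sm (c0 : Fin k →₀ ℕ) (S : Finset (Fin n)) (c : Fin n → (Fin k →₀ ℕ)) :
    ps n c0 * sm S c = (∑ i ∈ S, sm S (Function.update c i (c i + c0)))
      + ∑ i ∈ Sᶜ, sm (insert i S) (Function.update c i c0) := by
  have h1 : ∀ σ : Equiv.Perm (Fin n), (ps n c0 : MvPolynomial (Fin k × Fin n) ℂ)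
      = ∑ i, xm (σ i) c0 := fun σ =>
    (Fintype.sum_equiv σ (fun i => (xm (σ i) c0 : MvPolynomial (Fin k × Fin n) ℂ)) _
      fun j => rfl).symm
  unfold sm
  rw [Finset.mul_sum, Finset.sum_comm, Finset.sum_comm (s := Sᶜ), ← Finset.sum_add_distrib]
  refine Finset.sum_congr rfl fun σ _ => ?_
  rw [h1 σ, Finset.sum_mul, ← Finset.sum_add_sum_compl S]
  congr 1
  · refine Finset.sum_congr rfl fun i hi => ?_
    rw [← Finset.mul_prod_erase S _ hi, ← Finset.mul_prod_erase S _ hi, Function.update_self,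
      xm_add, ← mul_assoc, mul_comm (xm (σ i) c0)]
    congr 1
    refine Finset.prod_congr rfl fun j hj => ?_
    rw [Function.update_of_ne (Finset.mem_erase.1 hj).1]
  · refine Finset.sum_congr rfl fun i hi => ?_
    have hi' : i ∉ S := Finset.mem_compl.1 hi
    rw [Finset.prod_insert hi', Function.update_self]
    congr 1
    refine Finset.prod_congr rfl fun j hj => ?_
    have : j ≠ i := fun h => hi' (h ▸ hj)
    rw [Function.update_of_ne this]

lemma sm_swap (S : Finset (Fin n)) (c : Fin n → (Fin k →₀ ℕ)) (i j0 : Fin n) (hi : i ∉ S)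
    (hj : j0 ∉ S) : sm (insert i S) (Function.update c i (c j0)) = sm (insert j0 S) c := by
  unfold sm
  refine Fintype.sum_equiv (Equiv.mulRight (Equiv.swap i j0)) _ _ fun σ => ?_
  rw [Finset.prod_insert hi, Finset.prod_insert hj, Function.update_self]
  congr 1
  · simp
  · refine Finset.prod_congr rfl fun j hjS => ?_
    have h1 : j ≠ i := fun h => hi (h ▸ hjS)
    have h2 : j ≠ j0 := fun h => hj (h ▸ hjS)
    rw [Function.update_of_ne h1]
    simp [Equiv.swap_apply_of_ne_of_ne h1 h2]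

lemma sm_mem_Vinf (r : ℕ) : ∀ (S : Finset (Fin n)) (c : Fin n → (Fin k →₀ ℕ)),
    S.card = r → S.Nonempty → (∀ j ∈ S, c j ≠ 0) → sm S c ∈ Vinf k n := by
  induction r with
  | zero =>
    intro S c h0 hne
    exact absurd (Finset.card_eq_zero.1 h0) hne.ne_empty
  | succ r ih =>
    intro S c hcard hne hc
    obtain ⟨j0, hj0⟩ := hne
    set S' := S.erase j0 with hS'
    have hS : insert j0 S' = S := Finset.insert_erase hj0
    have hj0' : j0 ∉ S' := Finset.notMem_erase _ _
    have hcard' : S'.card = r := by rw [hS', Finset.card_erase_of_mem hj0, hcard]; rfl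
    have hmul := ps_mul_sm (c j0) S' c
    have h2 : ∑ i ∈ S'ᶜ, sm (insert i S') (Function.update c i (c j0))
        = (S'ᶜ.card : MvPolynomial (Fin k × Fin n) ℂ) * sm S c := by
      rw [Finset.sum_congr rfl fun i hi =>
        sm_swap S' c i j0 (Finset.mem_compl.1 hi) hj0', hS]
      simp
    have h3 : ∑ i ∈ S', sm S' (Function.update c i (c i + c j0)) ∈ Vinf k n := by
      refine Ideal.sum_mem _ fun i hi => ?_
      refine ih S' _ hcard' ⟨i, hi⟩ ?_
      intro j hj
      by_cases hji : j = i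
      · subst hji
        rw [Function.update_self]
        intro h0
        have := hc j (Finset.mem_of_mem_erase hj)
        apply this
        ext x
        have hx := DFunLike.congr_fun h0 x
        simp at hx
        simp [hx.1]
      · rw [Function.update_of_ne hji]
        exact hc j (Finset.mem_of_mem_erase hj)
    have h4 : ps n (c j0) * sm S' c ∈ Vinf k n :=
      Ideal.mul_mem_right _ _ (Ideal.subset_span ⟨c j0, hc j0 hj0, rfl⟩)
    have h5 : (S'ᶜ.card : MvPolynomial (Fin k × Fin n) ℂ) * sm S c ∈ Vinf k n := by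
      have : (S'ᶜ.card : MvPolynomial (Fin k × Fin n) ℂ) * sm S c
          = ps n (c j0) * sm S' c - ∑ i ∈ S', sm S' (Function.update c i (c i + c j0)) := by
        rw [hmul, h2]; ring
      rw [this]; exact Ideal.sub_mem _ h4 h3
    have hpos : (S'ᶜ.card : ℂ) ≠ 0 := by
      have : 0 < S'ᶜ.card := Finset.card_pos.2 ⟨j0, Finset.mem_compl.2 hj0'⟩
      exact_mod_cast this.ne'
    have h6 : C ((S'ᶜ.card : ℂ))⁻¹ * ((S'ᶜ.card : MvPolynomial (Fin k × Fin n) ℂ) * sm S c)
        = sm S c := by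
      rw [← mul_assoc, ← map_natCast (C : ℂ →+* MvPolynomial (Fin k × Fin n) ℂ), ← C_mul,
        inv_mul_cancel₀ hpos, C_1, one_mul]
    rw [← h6]
    exact Ideal.mul_mem_left _ _ h5

/-- the `j`-th exponent vector of a monomial. -/
def expo (m : Fin k × Fin n →₀ ℕ) (j : Fin n) : Fin k →₀ ℕ :=
  Finsupp.equivFunOnFinite.symm fun κ => m (κ, j)

lemma ren_monomial (σ : Equiv.Perm (Fin n)) (m : Fin k × Fin n →₀ ℕ) :
    ren k σ (monomial m (1 : ℂ)) = ∏ j, xm (σ j) (expo m j) := by
  have h1 : ∀ j, (xm (σ j) (expo m j) : MvPolynomial (Fin k × Fin n) ℂ)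
      = ∏ κ : Fin k, X (κ, σ j) ^ m (κ, j) := by
    intro j
    unfold xm
    rw [monomial_eq, C_1, one_mul, Finsupp.prod_fintype _ _ (fun i => pow_zero _), map_prod]
    refine Finset.prod_congr rfl fun κ _ => ?_
    rw [map_pow, rename_X]
    rfl
  rw [Finset.prod_congr rfl fun j _ => h1 j]
  unfold ren
  rw [monomial_eq, C_1, one_mul, Finsupp.prod_fintype _ _ (fun i => pow_zero _), map_prod,
    Fintype.prod_prod_type_right]
  simp only [map_pow, rename_X]

lemma sum_ren_monomial_mem (m : Fin k × Fin n →₀ ℕ) (hm : m ≠ 0) :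
    ∑ σ : Equiv.Perm (Fin n), ren k σ (monomial m (1 : ℂ)) ∈ Vinf k n := by
  classical
  set S : Finset (Fin n) := Finset.univ.filter fun j => expo m j ≠ 0 with hS
  have h1 : ∑ σ : Equiv.Perm (Fin n), ren k σ (monomial m (1 : ℂ)) = sm S (expo m) := by
    unfold sm
    refine Finset.sum_congr rfl fun σ _ => ?_
    rw [ren_monomial]
    symm
    refine Finset.prod_subset (Finset.subset_univ _) fun j _ hj => ?_
    have : expo m j = 0 := by
      by_contra hne
      exact hj (Finset.mem_filter.2 ⟨Finset.mem_univ _, hne⟩)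
    rw [this]
    unfold xm
    simp
  rw [h1]
  refine sm_mem_Vinf S.card S _ rfl ?_ ?_
  · by_contra hcon
    rw [Finset.not_nonempty_iff_eq_empty] at hcon
    apply hm
    ext ⟨κ, j⟩
    have : expo m j = 0 := by
      by_contra hne
      have : j ∈ S := Finset.mem_filter.2 ⟨Finset.mem_univ _, hne⟩
      rw [hcon] at this
      exact absurd this (Finset.notMem_empty _)
    exact DFunLike.congr_fun this κ
  · intro j hj
    exact (Finset.mem_filter.1 hj).2

lemma invariant_mem_Vinf {p : MvPolynomial (Fin k × Fin n) ℂ}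
    (hinv : ∀ σ : Equiv.Perm (Fin n), ren k σ p = p) (h0 : coeff 0 p = 0) : p ∈ Vinf k n := by
  classical
  have h1 : ∑ σ : Equiv.Perm (Fin n), ren k σ p
      = (Fintype.card (Equiv.Perm (Fin n)) : MvPolynomial (Fin k × Fin n) ℂ) * p := by
    rw [Finset.sum_congr rfl fun σ _ => hinv σ]
    simp
  have h2 : ∑ σ : Equiv.Perm (Fin n), ren k σ p ∈ Vinf k n := by
    have : ∑ σ : Equiv.Perm (Fin n), ren k σ p
        = ∑ m ∈ p.support, C (coeff m p)
            * ∑ σ : Equiv.Perm (Fin n), ren k σ (monomial m (1 : ℂ)) := by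
      conv_lhs => rw [p.as_sum]
      simp only [map_sum]
      rw [Finset.sum_comm]
      refine Finset.sum_congr rfl fun m _ => ?_
      rw [Finset.mul_sum]
      refine Finset.sum_congr rfl fun σ _ => ?_
      have e : monomial m (coeff m p) = C (coeff m p) * monomial m (1 : ℂ) := by
        rw [C_mul_monomial, mul_one]
      rw [e, map_mul]
      congr 1
      simp [ren]
    rw [this]
    refine Ideal.sum_mem _ fun m hm => Ideal.mul_mem_left _ _ (sum_ren_monomial_mem m ?_)
    rintro rfl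
    exact (mem_support_iff.1 hm) h0
  rw [h1] at h2
  have hpos : ((Fintype.card (Equiv.Perm (Fin n)) : ℕ) : ℂ) ≠ 0 := by
    exact_mod_cast Fintype.card_ne_zero
  have h6 : C (((Fintype.card (Equiv.Perm (Fin n)) : ℕ) : ℂ))⁻¹
      * ((Fintype.card (Equiv.Perm (Fin n)) : MvPolynomial (Fin k × Fin n) ℂ) * p) = p := by
    rw [← mul_assoc, ← map_natCast (C : ℂ →+* MvPolynomial (Fin k × Fin n) ℂ), ← C_mul,
      inv_mul_cancel₀ hpos, C_1, one_mul]
  rw [← h6]
  exact Ideal.mul_mem_left _ _ h2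

end Pool.Agent.DiagCoinv
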